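import Mathlib

/-!
Definitions for the bull-free project (MP_e9b9cb).  First-order forms: all the vertices of a
pattern are automatically distinct.
-/

namespace BullS6

open Finset

/-- no induced bull: triangle `x y t`, pendant edges `u x` and `v y` -/
def BullFree {V : Type*} (G : SimpleGraph V) : Prop :=
  ∀ u x y t v : V, G.Adj x y → G.Adj y t → G.Adj x t → G.Adj u x → G.Adj v y →
    ¬ G.Adj u y → ¬ G.Adj u t → ¬ G.Adj v x → ¬ G.Adj v t → ¬ G.Adj u v → False

/-- no induced gem: the path `p q r s` and the centre `c` -/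
def GemFree {V : Type*} (G : SimpleGraph V) : Prop :=
  ∀ c p q r s : V, G.Adj c p → G.Adj c q → G.Adj c r → G.Adj c s →
    G.Adj p q → G.Adj q r → G.Adj r s → ¬ G.Adj p r → ¬ G.Adj p s → ¬ G.Adj q s → False

/-- no proper module with at least two vertices -/
def PrimeG {V : Type*} [Fintype V] [DecidableEq V] (G : SimpleGraph V) : Prop :=
  ∀ M : Finset V, 2 ≤ M.card →
    (∀ w, w ∉ M → (∀ x ∈ M, G.Adj w x) ∨ (∀ x ∈ M, ¬ G.Adj w x)) → M = Finset.univ

/-- `X` induces a connected, triangle-free, non-bipartite subgraph -/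
structure GoodX {V : Type*} (G : SimpleGraph V) (X : Finset V) : Prop where
  conn : ∀ Z : Finset V, Z ⊆ X → Z.Nonempty → (∀ z ∈ Z, ∀ x ∈ X, G.Adj z x → x ∈ Z) → Z = X
  tri : ∀ x ∈ X, ∀ y ∈ X, ∀ z ∈ X, G.Adj x y → G.Adj y z → G.Adj x z → False
  nb : ∀ c : V → Bool, ∃ x ∈ X, ∃ y ∈ X, G.Adj x y ∧ c x = c y

/-- the number of ordered pairs of adjacent vertices of `X` -/
noncomputable def ec {V : Type*} (G : SimpleGraph V) (X : Finset V) : ℕ := by
  classical exact ((X ×ˢ X).filter (fun p => G.Adj p.1 p.2)).card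

/-- the standing assumptions of Step 6 -/
structure S6 {V : Type*} [Fintype V] [DecidableEq V] (G : SimpleGraph V) (X : Finset V) : Prop where
  bull : BullFree G
  gem : GemFree G
  prime : PrimeG G
  good : GoodX G X
  max : ∀ X' : Finset V, GoodX G X' → ec G X' ≤ ec G X

/-- the standing assumptions of Claim A: `a b` is an edge of `X` in the neighbourhood of `v`,
`y` is a neighbour of `v` which is not adjacent to `a`, `b` and `r` is a neighbour of `a` in `X`
outside the neighbourhood of `v` -/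
structure CA {V : Type*} [Fintype V] [DecidableEq V] (G : SimpleGraph V) (X : Finset V)
    (v a b y r : V) : Prop where
  s6 : S6 G X
  hv : v ∉ X
  ha : a ∈ X
  hb : b ∈ X
  hy : y ∈ X
  hr : r ∈ X
  ab : G.Adj a b
  va : G.Adj v a
  vb : G.Adj v b
  vy : G.Adj v y
  ya : ¬ G.Adj y a
  yb : ¬ G.Adj y b
  ra : G.Adj r a
  rv : ¬ G.Adj v r

end BullS6
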