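import Mathlib
import Pool.Agent.H3.BF.Defs

/-!
Structure of the neighbourhood in `X` of a vertex `v` outside `X` (step 6e), for an edge `a b` of `X`
inside the neighbourhood of `v`.  `U1 = {x ∈ X | v ~ x, x ~ b}`, `U2 = {x ∈ X | v ~ x, x ~ a}`,
`Y0 = {y ∈ X | v ~ y, y ≁ a, y ≁ b}`.
-/

namespace BullS6

open Finset

variable {V : Type*} {G : SimpleGraph V} {X : Finset V}

/-- `U1` is complete to `U2` -/
theorem st_e1 (hg : GemFree G) (hX : GoodX G X) {v a b : V} (ha : a ∈ X) (hb : b ∈ X)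
    (ab : G.Adj a b) (va : G.Adj v a) (vb : G.Adj v b) {x y : V} (hx : x ∈ X) (hy : y ∈ X)
    (vx : G.Adj v x) (vy : G.Adj v y) (xb : G.Adj x b) (ya : G.Adj y a) : G.Adj x y := by
  by_contra h
  exact hg v x b a y vx vb va vy xb ab.symm ya.symm
    (fun h1 => hX.tri x hx a ha b hb h1 ab xb) h
    (fun h1 => hX.tri a ha b hb y hy ab h1 ya.symm)

/-- `Y0` is anticomplete to `U1 ∪ U2` -/
theorem st_e2 (hg : GemFree G) (hX : GoodX G X) {v a b : V} (ha : a ∈ X) (hb : b ∈ X)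
    (ab : G.Adj a b) (va : G.Adj v a) (vb : G.Adj v b) {y u : V} (_hy : y ∈ X) (hu : u ∈ X)
    (vy : G.Adj v y) (ya : ¬ G.Adj y a) (yb : ¬ G.Adj y b) (vu : G.Adj v u)
    (h : G.Adj u a ∨ G.Adj u b) : ¬ G.Adj y u := by
  intro yu
  rcases h with h | h
  · exact hg v y u a b vy vu va vb yu h ab ya yb
      (fun h1 => hX.tri u hu a ha b hb h ab h1)
  · exact hg v y u b a vy vu vb va yu h ab.symm yb ya
      (fun h1 => hX.tri u hu a ha b hb h1 ab h)

/-- `(*)`: a vertex of `X` outside `N(v)` with a neighbour in `U1 ∪ U2` is complete to `Y0` -/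
theorem st_e3 (hbl : BullFree G) (hg : GemFree G) (hX : GoodX G X) {v a b : V} (ha : a ∈ X)
    (hb : b ∈ X) (ab : G.Adj a b) (va : G.Adj v a) (vb : G.Adj v b) {x u y : V} (hx : x ∈ X)
    (hu : u ∈ X) (hy : y ∈ X) (vx : ¬ G.Adj v x) (vu : G.Adj v u) (h : G.Adj u a ∨ G.Adj u b)
    (xu : G.Adj x u) (vy : G.Adj v y) (ya : ¬ G.Adj y a) (yb : ¬ G.Adj y b) : G.Adj x y := by
  by_contra hxy
  have yu := st_e2 hg hX ha hb ab va vb hy hu vy ya yb vu h
  rcases h with h | h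
  · exact hbl x u v a y vu.symm va h xu vy.symm (fun h1 => vx h1.symm)
      (fun h1 => hX.tri x hx u hu a ha xu h h1) yu ya hxy
  · exact hbl x u v b y vu.symm vb h xu vy.symm (fun h1 => vx h1.symm)
      (fun h1 => hX.tri x hx u hu b hb xu h h1) yu yb hxy

/-- some vertex of `X` outside `N(v)` has a neighbour in `U1 ∪ U2` -/
theorem st_e4 [DecidableEq V] (hg : GemFree G) (hX : GoodX G X) {v a b : V} (ha : a ∈ X)
    (hb : b ∈ X) (ab : G.Adj a b) (va : G.Adj v a) (vb : G.Adj v b) :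
    ∃ x ∈ X, ¬ G.Adj v x ∧ ∃ u ∈ X, G.Adj v u ∧ (G.Adj u a ∨ G.Adj u b) ∧ G.Adj x u := by
  classical
  by_contra hne
  push Not at hne
  have hZ : X.filter (fun x => G.Adj v x ∧ (G.Adj x a ∨ G.Adj x b)) = X := by
    apply hX.conn _ (Finset.filter_subset _ _)
    · exact ⟨a, by simp [ha, va, ab]⟩
    · intro z hz x hx hzx
      simp only [Finset.mem_filter] at hz ⊢
      obtain ⟨hz, vz, h⟩ := hz
      have vx : G.Adj v x := by
        by_contra vx
        exact hne x hx vx z hz vz h hzx.symm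
      refine ⟨hx, vx, ?_⟩
      by_contra hxab
      push Not at hxab
      exact st_e2 hg hX ha hb ab va vb hx hz vx hxab.1 hxab.2 vz h hzx.symm
  obtain ⟨x, hx, y, hy, hxy, hc⟩ := hX.nb (fun x => decide (G.Adj x b))
  rw [← hZ, Finset.mem_filter] at hx hy
  obtain ⟨hx, _, hx2⟩ := hx
  obtain ⟨hy, _, hy2⟩ := hy
  by_cases h1 : G.Adj x b
  · have h2 : G.Adj y b := by simpa [h1] using hc
    exact hX.tri x hx y hy b hb hxy h2 h1
  · have h2 : ¬ G.Adj y b := by simpa [h1] using hc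
    have h3 : G.Adj x a := hx2.resolve_right h1
    have h4 : G.Adj y a := hy2.resolve_right h2
    exact hX.tri x hx y hy a ha hxy h4 h3

/-- `Y0` is stable -/
theorem st_e5 [DecidableEq V] (hbl : BullFree G) (hg : GemFree G) (hX : GoodX G X) {v a b : V}
    (ha : a ∈ X) (hb : b ∈ X) (ab : G.Adj a b) (va : G.Adj v a) (vb : G.Adj v b) {y y' : V}
    (hy : y ∈ X) (hy' : y' ∈ X) (vy : G.Adj v y) (ya : ¬ G.Adj y a) (yb : ¬ G.Adj y b)
    (vy' : G.Adj v y') (ya' : ¬ G.Adj y' a) (yb' : ¬ G.Adj y' b) : ¬ G.Adj y y' := by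
  intro h
  obtain ⟨x, hx, vx, u, hu, vu, hu2, xu⟩ := st_e4 hg hX ha hb ab va vb
  have h1 := st_e3 hbl hg hX ha hb ab va vb hx hu hy vx vu hu2 xu vy ya yb
  have h2 := st_e3 hbl hg hX ha hb ab va vb hx hu hy' vx vu hu2 xu vy' ya' yb'
  exact hX.tri x hx y hy y' hy' h1 h h2

/-- `R1` is complete to `R2` -/
theorem st_e6 (hbl : BullFree G) (hg : GemFree G) (hX : GoodX G X) {v a b : V}
    (ha : a ∈ X) (hb : b ∈ X) (ab : G.Adj a b) (va : G.Adj v a) (vb : G.Adj v b) {r r' u u' : V}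
    (hr : r ∈ X) (hr' : r' ∈ X) (hu : u ∈ X) (hu' : u' ∈ X) (vr : ¬ G.Adj v r)
    (vr' : ¬ G.Adj v r') (vu : G.Adj v u) (vu' : G.Adj v u') (ub : G.Adj u b) (ua : G.Adj u' a)
    (ru : G.Adj r u) (ru' : G.Adj r' u') : G.Adj r r' := by
  by_contra h
  have uu := st_e1 hg hX ha hb ab va vb hu hu' vu vu' ub ua
  exact hbl r u u' v r' uu vu'.symm vu.symm ru ru'
    (fun h1 => hX.tri r hr u hu u' hu' ru uu h1) (fun h1 => vr h1.symm)
    (fun h1 => hX.tri r' hr' u' hu' u hu ru' uu.symm h1) (fun h1 => vr' h1.symm) h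

/-- if `Y0` is nonempty then `R1` or `R2` is empty -/
theorem st_e7 (hbl : BullFree G) (hg : GemFree G) (hX : GoodX G X) {v a b : V}
    (ha : a ∈ X) (hb : b ∈ X) (ab : G.Adj a b) (va : G.Adj v a) (vb : G.Adj v b) {r r' u u' y : V}
    (hr : r ∈ X) (hr' : r' ∈ X) (hu : u ∈ X) (hu' : u' ∈ X) (hy : y ∈ X) (vr : ¬ G.Adj v r)
    (vr' : ¬ G.Adj v r') (vu : G.Adj v u) (vu' : G.Adj v u') (ub : G.Adj u b) (ua : G.Adj u' a)
    (ru : G.Adj r u) (ru' : G.Adj r' u') (vy : G.Adj v y) (ya : ¬ G.Adj y a)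
    (yb : ¬ G.Adj y b) : False := by
  have h1 := st_e3 hbl hg hX ha hb ab va vb hr hu hy vr vu (Or.inr ub) ru vy ya yb
  have h2 := st_e3 hbl hg hX ha hb ab va vb hr' hu' hy vr' vu' (Or.inl ua) ru' vy ya yb
  have h3 := st_e6 hbl hg hX ha hb ab va vb hr hr' hu hu' vr vr' vu vu' ub ua ru ru'
  exact hX.tri r hr r' hr' y hy h3 h2 h1

/-- base change: `U1` does not depend on the choice of `b` in `U2` -/
theorem st_e8 (hg : GemFree G) (hX : GoodX G X) {v a b : V} (ha : a ∈ X) (hb : b ∈ X)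
    (ab : G.Adj a b) (va : G.Adj v a) (vb : G.Adj v b) {b' x : V} (hb' : b' ∈ X) (hx : x ∈ X)
    (vb' : G.Adj v b') (ba' : G.Adj b' a) (vx : G.Adj v x) : G.Adj x b' ↔ G.Adj x b := by
  constructor
  · intro h
    by_contra hxb
    have hxa : ¬ G.Adj x a := fun h1 => hX.tri x hx b' hb' a ha h ba' h1
    exact st_e2 hg hX ha hb ab va vb hx hb' vx hxa hxb vb' (Or.inl ba') h
  · intro h
    exact st_e1 hg hX ha hb ab va vb hx hb' vx vb' h ba'

end BullS6
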