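import Mathlib
import Pool.Agent.H3.BF.Struc

/-!
Row MAX: use of the maximality of the number of edges (steps 6a, 6b, 6c and `|U2| ≥ 2` of Claim A).

* `s6_conn`: `G` is connected.  If `Z` (nonempty, closed under neighbours) is not everything: when
  `2 ≤ |Z|`, `Z` is a module (a vertex outside is anticomplete); when `|Z| = 1`, its complement is a
  module with at least two vertices (`X` contains an edge and has a nonadjacent pair, so there are
  at least three vertices), so `Zᶜ = univ`, contradiction.
* `s6_a`: `X` has an edge `a b` (`nb` with a constant colouring); if `v` were complete to `X` then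
  `st_e4` gives `x ∈ X` with `¬ v ~ x`.
* `s6_b`: if there is no edge of `X` in `N(v)` then `X' = insert v X` satisfies `GoodX` (a triangle
  containing `v` gives an edge in `N(v) ∩ X`; `nb` restricts to `X`; `conn`: for `Z ⊆ X'` closed,
  `Z \ {v}` is closed in `X`; it is nonempty since `v ~ y` ) and has more edges: the pairs
  `(v, y)`, `(y, v)` are new.
* `s6_c`: the set `R0` of vertices outside `X` without neighbour in `X` is empty: otherwise its
  complement is nonempty and not everything, so by `s6_conn` there are `u ∈ R0`, `v ∉ R0` adjacent;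
  `v ∉ X`, so by `s6_b` there is an edge `a b` of `X` in `N(v)`; `st_e4` gives `x, u'`; the bull
  is: triangle `v u' b` (if `u' ~ b`; else `v u' a`), pendants `u - v`, `x - u'`.
* `ca3`: otherwise `U2 = {b}`; `X' = insert v (X.erase b)` satisfies `GoodX` and has more edges.
  `tri`: a triangle of `X'` contains `v`, so there are adjacent `x, x' ∈ X \ {b}` in `N(v)`; by
  `st_e1, st_e2, st_e5` one of them is in `U2 = {b}`.
  `conn`: for `Z ⊆ X'` closed in `X'` replace `v` by `b` (the neighbours of `b` in `X` are exactly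
  the vertices of `U1`, see `ca2`; they are adjacent to `v`).  `nb`: for `c : V → Bool` use
  `Function.update c b (c v)` for `X`.  Edges: replace `b` by `v` in every ordered pair: injective
  on the pairs of `X`, and `(v, y)` is not in the image since `¬ b ~ y`.
-/

namespace BullS6

open Finset

variable {V : Type*} [Fintype V] [DecidableEq V] {G : SimpleGraph V} {X : Finset V}

theorem s6_conn (h : S6 G X) (Z : Finset V) (hZ : Z.Nonempty)
    (hcl : ∀ z ∈ Z, ∀ x, G.Adj z x → x ∈ Z) : Z = Finset.univ := by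
  by_cases hc : 2 ≤ Z.card
  · exact h.prime Z hc (fun w hw => Or.inr (fun x hx hwx => hw (hcl x hx w hwx.symm)))
  · exfalso
    have h1 : Z.card = 1 := by
      have := hZ.card_pos
      omega
    obtain ⟨z, rfl⟩ := Finset.card_eq_one.1 h1
    have hz : ∀ x, ¬ G.Adj z x := by
      intro x hx
      have h2 := hcl z (Finset.mem_singleton_self z) x hx
      rw [Finset.mem_singleton] at h2
      exact hx.ne h2.symm
    obtain ⟨x, -, y, -, hxy, -⟩ := h.good.nb (fun _ => true)
    have hxz : x ≠ z := by
      rintro rfl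
      exact hz y hxy
    have hyz : y ≠ z := by
      rintro rfl
      exact hz x hxy.symm
    have h3 : (Finset.univ.erase z) = (Finset.univ : Finset V) := by
      apply h.prime
      · have h4 : ({x, y} : Finset V) ⊆ Finset.univ.erase z := by
          intro w hw
          simp only [Finset.mem_insert, Finset.mem_singleton] at hw
          rcases hw with rfl | rfl
          · simp [hxz]
          · simp [hyz]
        have h5 := Finset.card_le_card h4
        rwa [Finset.card_pair hxy.ne] at h5
      · intro w hw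
        have h4 : w = z := by
          by_contra h5
          exact hw (by simp [h5])
        subst h4
        exact Or.inr (fun x _ => hz x)
    have h4 : z ∈ Finset.univ.erase z := by
      rw [h3]
      exact Finset.mem_univ z
    simp at h4

theorem s6_a (h : S6 G X) {v : V} (hv : v ∉ X) : ∃ x ∈ X, ¬ G.Adj v x := by
  by_contra hne
  push Not at hne
  obtain ⟨a, ha, b, hb, hab, -⟩ := h.good.nb (fun _ => true)
  obtain ⟨x, hx, vx, -⟩ := st_e4 h.gem h.good ha hb hab (hne a ha) (hne b hb)
  exact vx (hne x hx)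

private theorem max_ec_lt {X X' : Finset V} (f : V → V) (hinj : ∀ x ∈ X, ∀ y ∈ X, f x = f y → x = y)
    (hmap : ∀ x ∈ X, f x ∈ X') (hadj : ∀ x ∈ X, ∀ y ∈ X, G.Adj x y → G.Adj (f x) (f y))
    {p q : V} (hp : p ∈ X') (hq : q ∈ X') (hpq : G.Adj p q)
    (hnot : ∀ x ∈ X, ∀ y ∈ X, G.Adj x y → f x = p → f y = q → False) : ec G X < ec G X' := by
  classical
  unfold ec
  refine lt_of_le_of_lt ?_ (Finset.card_erase_lt_of_mem
    (s := (X' ×ˢ X').filter (fun p => G.Adj p.1 p.2)) (a := (p, q)) ?_)
  · apply Finset.card_le_card_of_injOn (fun z : V × V => (f z.1, f z.2))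
    · intro z hz
      have hz' := Finset.mem_filter.1 (Finset.mem_coe.1 hz)
      obtain ⟨hz1, hz2⟩ := hz'
      obtain ⟨h1, h2⟩ := Finset.mem_product.1 hz1
      apply Finset.mem_coe.2
      apply Finset.mem_erase.2
      constructor
      · intro heq
        rw [Prod.mk.injEq] at heq
        exact hnot z.1 h1 z.2 h2 hz2 heq.1 heq.2
      · apply Finset.mem_filter.2
        exact ⟨Finset.mem_product.2 ⟨hmap _ h1, hmap _ h2⟩, hadj _ h1 _ h2 hz2⟩
    · intro z hz w hw hzw
      have hz' := Finset.mem_filter.1 (Finset.mem_coe.1 hz)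
      have hw' := Finset.mem_filter.1 (Finset.mem_coe.1 hw)
      obtain ⟨h1, h2⟩ := Finset.mem_product.1 hz'.1
      obtain ⟨h3, h4⟩ := Finset.mem_product.1 hw'.1
      have h5 : (f z.1, f z.2) = (f w.1, f w.2) := hzw
      rw [Prod.mk.injEq] at h5
      exact Prod.ext (hinj _ h1 _ h3 h5.1) (hinj _ h2 _ h4 h5.2)
  · apply Finset.mem_filter.2
    exact ⟨Finset.mem_product.2 ⟨hp, hq⟩, hpq⟩

theorem s6_b (h : S6 G X) {v y : V} (hv : v ∉ X) (hy : y ∈ X) (vy : G.Adj v y) :
    ∃ a ∈ X, ∃ b ∈ X, G.Adj a b ∧ G.Adj v a ∧ G.Adj v b := by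
  by_contra hne
  push Not at hne
  have hX := h.good
  have hyv : y ≠ v := fun h1 => hv (h1 ▸ hy)
  have hgood : GoodX G (insert v X) := by
    refine ⟨?_, ?_, ?_⟩
    · intro Z hZ hZn hcl
      have h1 : Z.erase v = X := by
        apply hX.conn
        · intro z hz
          obtain ⟨hz1, hz2⟩ := Finset.mem_erase.1 hz
          exact (Finset.mem_insert.1 (hZ hz2)).resolve_left hz1
        · obtain ⟨z, hz⟩ := hZn
          by_cases hzv : z = v
          · subst hzv
            exact ⟨y, Finset.mem_erase.2 ⟨hyv, hcl z hz y (Finset.mem_insert_of_mem hy) vy⟩⟩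
          · exact ⟨z, Finset.mem_erase.2 ⟨hzv, hz⟩⟩
        · intro z hz x hx hzx
          obtain ⟨hz1, hz2⟩ := Finset.mem_erase.1 hz
          exact Finset.mem_erase.2 ⟨fun h1 => hv (h1 ▸ hx),
            hcl z hz2 x (Finset.mem_insert_of_mem hx) hzx⟩
      have h2 : y ∈ Z := (Finset.mem_erase.1 (by rw [h1]; exact hy : y ∈ Z.erase v)).2
      have h3 : v ∈ Z := hcl y h2 v (Finset.mem_insert_self v X) vy.symm
      rw [← h1, Finset.insert_erase h3]
    · have key : ∀ p ∈ insert v X, ∀ q ∈ insert v X, G.Adj v p → G.Adj p q → G.Adj v q →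
          False := by
        intro p hp q hq vp pq vq
        have hp' : p ∈ X := (Finset.mem_insert.1 hp).resolve_left vp.ne'
        have hq' : q ∈ X := (Finset.mem_insert.1 hq).resolve_left vq.ne'
        exact hne p hp' q hq' pq vp vq
      intro x hx y hy z hz hxy hyz hxz
      by_cases hxv : x = v
      · subst hxv
        exact key y hy z hz hxy hyz hxz
      by_cases hyv : y = v
      · subst hyv
        exact key x hx z hz hxy.symm hxz hyz
      by_cases hzv : z = v
      · subst hzv
        exact key x hx y hy hxz.symm hxy hyz.symm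
      exact hX.tri x ((Finset.mem_insert.1 hx).resolve_left hxv) y
        ((Finset.mem_insert.1 hy).resolve_left hyv) z
        ((Finset.mem_insert.1 hz).resolve_left hzv) hxy hyz hxz
    · intro c
      obtain ⟨x, hx, z, hz, hxz, hc⟩ := hX.nb c
      exact ⟨x, Finset.mem_insert_of_mem hx, z, Finset.mem_insert_of_mem hz, hxz, hc⟩
  have h1 := h.max _ hgood
  have h2 : ec G X < ec G (insert v X) := by
    apply max_ec_lt (fun x => x) (fun x _ y _ h => h) (fun x hx => Finset.mem_insert_of_mem hx)
      (fun x _ y _ h => h) (Finset.mem_insert_self v X) (Finset.mem_insert_of_mem hy) vy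
    intro x hx z hz hxz h3 h4
    have h5 : x = v := h3
    exact hv (h5 ▸ hx)
  omega

theorem s6_c (h : S6 G X) {v : V} (hv : v ∉ X) :
    ∃ a ∈ X, ∃ b ∈ X, G.Adj a b ∧ G.Adj v a ∧ G.Adj v b := by
  classical
  by_cases hvn : ∃ y ∈ X, G.Adj v y
  · obtain ⟨y, hy, vy⟩ := hvn
    exact s6_b h hv hy vy
  exfalso
  push Not at hvn
  have hX := h.good
  have h1 : ¬ (∀ z ∈ Finset.univ.filter (fun z => z ∈ X ∨ ∃ y ∈ X, G.Adj z y),
      ∀ x, G.Adj z x → x ∈ Finset.univ.filter (fun z => z ∈ X ∨ ∃ y ∈ X, G.Adj z y)) := by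
    intro hcl
    obtain ⟨x, hx, -⟩ := hX.nb (fun _ => true)
    have h2 := s6_conn h (Finset.univ.filter (fun z => z ∈ X ∨ ∃ y ∈ X, G.Adj z y))
      ⟨x, by simp [hx]⟩ hcl
    have h3 : v ∈ Finset.univ.filter (fun z => z ∈ X ∨ ∃ y ∈ X, G.Adj z y) := by
      rw [h2]
      exact Finset.mem_univ v
    rcases (Finset.mem_filter.1 h3).2 with h4 | ⟨y, hy, vy⟩
    · exact hv h4
    · exact hvn y hy vy
  push Not at h1
  obtain ⟨z, hz, w, hzw, hw⟩ := h1
  have hw1 : w ∉ X := fun h2 => hw (by simp [h2])
  have hw2 : ∀ y ∈ X, ¬ G.Adj w y := fun y hy h2 =>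
    hw (Finset.mem_filter.2 ⟨Finset.mem_univ w, Or.inr ⟨y, hy, h2⟩⟩)
  have hz1 : z ∉ X := fun h2 => hw2 z h2 hzw.symm
  obtain ⟨y, hy, zy⟩ := (Finset.mem_filter.1 hz).2.resolve_left hz1
  obtain ⟨a, ha, b, hb, hab, za, zb⟩ := s6_b h hz1 hy zy
  obtain ⟨x, hx, zx, u, hu, zu, hu2, xu⟩ := st_e4 h.gem hX ha hb hab za zb
  rcases hu2 with hu2 | hu2
  · exact h.bull w z u a x zu hu2 za hzw.symm xu (hw2 u hu) (hw2 a ha) (fun h1 => zx h1.symm)
      (fun h1 => hX.tri x hx u hu a ha xu hu2 h1) (hw2 x hx)
  · exact h.bull w z u b x zu hu2 zb hzw.symm xu (hw2 u hu) (hw2 b hb) (fun h1 => zx h1.symm)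
      (fun h1 => hX.tri x hx u hu b hb xu hu2 h1) (hw2 x hx)

/-- `N_X(b') = U1` for every `b' ∈ U2` -/
theorem ca2 {v a b y r : V} (h : CA G X v a b y r) {b' x : V} (hb' : b' ∈ X) (hx : x ∈ X)
    (vb' : G.Adj v b') (ba' : G.Adj b' a) : G.Adj x b' ↔ (G.Adj v x ∧ G.Adj x b) := by
  have hX := h.s6.good
  have hg := h.s6.gem
  have hbl := h.s6.bull
  constructor
  · intro hxb
    have vx : G.Adj v x := by
      by_contra vx
      exact st_e7 hbl hg hX h.ha h.hb h.ab h.va h.vb h.hr hx h.ha hb' h.hy h.rv vx h.va vb'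
        h.ab ba' h.ra hxb h.vy h.ya h.yb
    exact ⟨vx, (st_e8 hg hX h.ha h.hb h.ab h.va h.vb hb' hx vb' ba' vx).1 hxb⟩
  · rintro ⟨vx, hxb⟩
    exact (st_e8 hg hX h.ha h.hb h.ab h.va h.vb hb' hx vb' ba' vx).2 hxb

/-- `U2` has at least two vertices -/
theorem ca3 {v a b y r : V} (h : CA G X v a b y r) :
    ∃ b2 ∈ X, b2 ≠ b ∧ G.Adj v b2 ∧ G.Adj b2 a := by
  classical
  by_contra hne
  push Not at hne
  have hX := h.s6.good
  have hg := h.s6.gem
  have hbl := h.s6.bull
  have hv := h.hv
  have hva : ∀ p ∈ X, p ≠ b → G.Adj v p → ¬ G.Adj p a := fun p hp hpb vp => hne p hp hpb vp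
  have hNb : ∀ x ∈ X, G.Adj x b → G.Adj v x := fun x hx hxb =>
    ((ca2 h h.hb hx h.vb h.ab.symm).1 hxb).1
  have hXv : ∀ x ∈ X, x ≠ v := fun x hx h1 => hv (h1 ▸ hx)
  have hyb : y ≠ b := fun h1 => h.ya (h1 ▸ h.ab.symm)
  have hmem : ∀ x, x ∈ insert v (X.erase b) ↔ x = v ∨ (x ≠ b ∧ x ∈ X) := by
    intro x
    rw [Finset.mem_insert, Finset.mem_erase]
  have hgood : GoodX G (insert v (X.erase b)) := by
    refine ⟨?_, ?_, ?_⟩
    · intro Z hZ hZn hcl
      by_cases hvZ : v ∈ Z
      · have h1 : insert b (Z.erase v) = X := by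
          apply hX.conn
          · intro z hz
            rcases Finset.mem_insert.1 hz with rfl | hz
            · exact h.hb
            · obtain ⟨hz1, hz2⟩ := Finset.mem_erase.1 hz
              exact (((hmem z).1 (hZ hz2)).resolve_left hz1).2
          · exact ⟨b, Finset.mem_insert_self _ _⟩
          · intro z hz x hx hzx
            by_cases hxb : x = b
            · rw [hxb]
              exact Finset.mem_insert_self _ _
            apply Finset.mem_insert_of_mem
            apply Finset.mem_erase.2
            refine ⟨hXv x hx, ?_⟩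
            have hx' : x ∈ insert v (X.erase b) := (hmem x).2 (Or.inr ⟨hxb, hx⟩)
            rcases Finset.mem_insert.1 hz with rfl | hz
            · exact hcl v hvZ x hx' (hNb x hx hzx.symm)
            · exact hcl z (Finset.mem_erase.1 hz).2 x hx' hzx
        apply Finset.Subset.antisymm hZ
        intro x hx
        rcases (hmem x).1 hx with rfl | ⟨hxb, hx⟩
        · exact hvZ
        · rw [← h1] at hx
          exact (Finset.mem_erase.1 ((Finset.mem_insert.1 hx).resolve_left hxb)).2
      · exfalso
        have hZX : ∀ z ∈ Z, z ≠ b ∧ z ∈ X := by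
          intro z hz
          rcases (hmem z).1 (hZ hz) with h1 | h1
          · exact absurd (h1 ▸ hz) hvZ
          · exact h1
        have h1 : Z = X := by
          apply hX.conn
          · exact fun z hz => (hZX z hz).2
          · exact hZn
          · intro z hz x hx hzx
            by_cases hxb : x = b
            · exfalso
              rw [hxb] at hzx
              exact hvZ (hcl z hz v ((hmem v).2 (Or.inl rfl)) (hNb z (hZX z hz).2 hzx).symm)
            · exact hcl z hz x ((hmem x).2 (Or.inr ⟨hxb, hx⟩)) hzx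
        exact (hZX b (by rw [h1]; exact h.hb)).1 rfl
    · have key : ∀ p ∈ insert v (X.erase b), ∀ q ∈ insert v (X.erase b), G.Adj v p →
          G.Adj p q → G.Adj v q → False := by
        intro p hp q hq vp pq vq
        obtain ⟨hpb, hp⟩ := ((hmem p).1 hp).resolve_left vp.ne'
        obtain ⟨hqb, hq⟩ := ((hmem q).1 hq).resolve_left vq.ne'
        have hpa := hva p hp hpb vp
        have hqa := hva q hq hqb vq
        by_cases h1 : G.Adj p b
        · by_cases h2 : G.Adj q b
          · exact hX.tri p hp q hq b h.hb pq h2 h1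
          · exact st_e2 hg hX h.ha h.hb h.ab h.va h.vb hq hp vq hqa h2 vp (Or.inr h1) pq.symm
        · by_cases h2 : G.Adj q b
          · exact st_e2 hg hX h.ha h.hb h.ab h.va h.vb hp hq vp hpa h1 vq (Or.inr h2) pq
          · exact st_e5 hbl hg hX h.ha h.hb h.ab h.va h.vb hp hq vp hpa h1 vq hqa h2 pq
      intro x hx y hy z hz hxy hyz hxz
      by_cases hxv : x = v
      · subst hxv
        exact key y hy z hz hxy hyz hxz
      by_cases hyv : y = v
      · subst hyv
        exact key x hx z hz hxy.symm hxz hyz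
      by_cases hzv : z = v
      · subst hzv
        exact key x hx y hy hxz.symm hxy hyz.symm
      exact hX.tri x (((hmem x).1 hx).resolve_left hxv).2 y
        (((hmem y).1 hy).resolve_left hyv).2 z
        (((hmem z).1 hz).resolve_left hzv).2 hxy hyz hxz
    · intro c
      obtain ⟨x, hx, z, hz, hxz, hc⟩ := hX.nb (Function.update c b (c v))
      by_cases hxb : x = b
      · have hzb : z ≠ b := fun h1 => hxz.ne (hxb.trans h1.symm)
        rw [hxb, Function.update_self, Function.update_of_ne hzb] at hc
        rw [hxb] at hxz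
        exact ⟨v, (hmem v).2 (Or.inl rfl), z, (hmem z).2 (Or.inr ⟨hzb, hz⟩),
          hNb z hz hxz.symm, hc⟩
      by_cases hzb : z = b
      · rw [hzb, Function.update_self, Function.update_of_ne hxb] at hc
        rw [hzb] at hxz
        exact ⟨x, (hmem x).2 (Or.inr ⟨hxb, hx⟩), v, (hmem v).2 (Or.inl rfl),
          (hNb x hx hxz).symm, hc⟩
      rw [Function.update_of_ne hxb, Function.update_of_ne hzb] at hc
      exact ⟨x, (hmem x).2 (Or.inr ⟨hxb, hx⟩), z, (hmem z).2 (Or.inr ⟨hzb, hz⟩), hxz, hc⟩
  have h1 := h.s6.max _ hgood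
  have h2 : ec G X < ec G (insert v (X.erase b)) := by
    apply max_ec_lt (fun x => if x = b then v else x) (p := v) (q := y)
    · intro x hx z hz hxz
      by_cases hxb : x = b
      · by_cases hzb : z = b
        · rw [hxb, hzb]
        · simp only [hxb, hzb, if_true, if_false] at hxz
          exact absurd hxz.symm (hXv z hz)
      · by_cases hzb : z = b
        · simp only [hxb, hzb, if_true, if_false] at hxz
          exact absurd hxz (hXv x hx)
        · simpa only [hxb, hzb, if_false] using hxz
    · intro x hx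
      by_cases hxb : x = b
      · simp only [hxb, if_true]
        exact (hmem v).2 (Or.inl rfl)
      · simp only [hxb, if_false]
        exact (hmem x).2 (Or.inr ⟨hxb, hx⟩)
    · intro x hx z hz hxz
      by_cases hxb : x = b
      · have hzb : z ≠ b := fun h1 => hxz.ne (hxb.trans h1.symm)
        simp only [hxb, hzb, if_true, if_false]
        rw [hxb] at hxz
        exact hNb z hz hxz.symm
      · by_cases hzb : z = b
        · simp only [hxb, hzb, if_true, if_false]
          rw [hzb] at hxz
          exact (hNb x hx hxz).symm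
        · simpa only [hxb, hzb, if_false] using hxz
    · exact (hmem v).2 (Or.inl rfl)
    · exact (hmem y).2 (Or.inr ⟨hyb, h.hy⟩)
    · exact h.vy
    · intro x hx z hz hxz h3 h4
      by_cases hxb : x = b
      · have hzb : z ≠ b := fun h1 => hxz.ne (hxb.trans h1.symm)
        simp only [hzb, if_false] at h4
        rw [hxb, h4] at hxz
        exact h.yb hxz.symm
      · simp only [hxb, if_false] at h3
        exact hXv x hx h3
  omega

end BullS6
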