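import Mathlib
import Pool.Agent.H3.BF.Max

/-!
Claim A of step 6: `Y0` is empty (written by helper3).
-/

namespace BullS6

open Finset

variable {V : Type*} [Fintype V] [DecidableEq V] {G : SimpleGraph V} {X : Finset V}

theorem ca_rebase {v a b y r : V} (h : CA G X v a b y r) {a' b' r' : V} (ha' : a' ∈ X)
    (hb' : b' ∈ X) (hr' : r' ∈ X) (va' : G.Adj v a') (a'b : G.Adj a' b) (vb' : G.Adj v b')
    (b'a : G.Adj b' a) (r'a' : G.Adj r' a') (vr' : ¬ G.Adj v r') : CA G X v a' b' y r' :=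
  { s6 := h.s6
    hv := h.hv
    ha := ha'
    hb := hb'
    hy := h.hy
    hr := hr'
    ab := st_e1 h.s6.gem h.s6.good h.ha h.hb h.ab h.va h.vb ha' hb' va' vb' a'b b'a
    va := va'
    vb := vb'
    vy := h.vy
    ya := st_e2 h.s6.gem h.s6.good h.ha h.hb h.ab h.va h.vb h.hy ha' h.vy h.ya h.yb va'
      (Or.inr a'b)
    yb := st_e2 h.s6.gem h.s6.good h.ha h.hb h.ab h.va h.vb h.hy hb' h.vy h.ya h.yb vb'
      (Or.inl b'a)
    ra := r'a'
    rv := vr' }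

/-- (A1) -/
theorem ca4 {v a b y r : V} (h : CA G X v a b y r) {u : V} (ub : G.Adj u b)
    (uv : ¬ G.Adj u v) : G.Adj u a := by
  classical
  by_contra ua
  have hX := h.s6.good
  have hg := h.s6.gem
  have hbl := h.s6.bull
  have key : ∀ {a' r' : V}, a' ∈ X → r' ∈ X → G.Adj v a' → G.Adj a' b → G.Adj r' a' →
      ¬ G.Adj v r' → ¬ G.Adj u a' → G.Adj u r' := by
    intro a' r' ha' hr' va' a'b r'a' vr' ua'
    by_contra hur
    exact hbl u b a' v r' a'b.symm va'.symm h.vb.symm ub r'a' ua' uv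
      (fun h1 => hX.tri r' hr' a' ha' b h.hb r'a' a'b h1) (fun h1 => vr' h1.symm) hur
  have ur : G.Adj u r := key h.ha h.hr h.va h.ab h.ra h.rv ua
  have uy : G.Adj u y := by
    by_contra huy
    exact hbl u b v a y h.vb.symm h.va h.ab.symm ub h.vy.symm uv ua h.yb h.ya huy
  have ry : G.Adj r y := st_e3 hbl hg hX h.ha h.hb h.ab h.va h.vb h.hr h.ha h.hy h.rv h.va
    (Or.inr h.ab) h.ra h.vy h.ya h.yb
  have br : ¬ G.Adj b r := fun h1 => hX.tri r h.hr a h.ha b h.hb h.ra h.ab h1.symm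
  have by' : ¬ G.Adj b y := fun h1 => h.yb h1.symm
  have f1 : ∀ a' ∈ X, G.Adj u a' → ¬ G.Adj a' b := by
    intro a' ha' ua' a'b
    by_cases h1 : G.Adj a' r ∨ G.Adj a' y
    · exact st_e2 hg hX h.hr h.hy ry ur uy h.hb ha' ub br by' ua' h1 a'b.symm
    · push Not at h1
      exact st_e5 hbl hg hX h.hr h.hy ry ur uy ha' h.hb ua' h1.1 h1.2 ub br by' a'b
  have n1 : ∀ z ∈ X, G.Adj v z → G.Adj z b → ∀ x ∈ X, G.Adj z x →
      (G.Adj v x ∧ G.Adj x a) ∨ (G.Adj u x ∧ G.Adj x y) := by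
    intro z hz vz zb x hx zx
    by_cases vx : G.Adj v x
    · left
      refine ⟨vx, ?_⟩
      by_contra xa
      have xb : ¬ G.Adj x b := fun h1 => hX.tri z hz x hx b h.hb zx h1 zb
      exact st_e2 hg hX h.ha h.hb h.ab h.va h.vb hx hz vx xa xb vz (Or.inr zb) zx.symm
    · right
      refine ⟨key hz hx vz zb zx.symm vx (fun h1 => f1 z hz h1 zb), ?_⟩
      exact st_e3 hbl hg hX h.ha h.hb h.ab h.va h.vb hx hz h.hy vx vz (Or.inr zb) zx.symm
        h.vy h.ya h.yb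
  have n2 : ∀ z ∈ X, G.Adj v z → G.Adj z a → ∀ x ∈ X, G.Adj z x → G.Adj v x ∧ G.Adj x b := by
    intro z hz vz za x hx zx
    exact (ca2 h hz hx vz za).1 zx.symm
  have n3 : ∀ z ∈ X, G.Adj u z → G.Adj z y → ∀ x ∈ X, G.Adj z x →
      (G.Adj u x ∧ G.Adj x r) ∨ (G.Adj v x ∧ G.Adj x b) := by
    intro z hz uz zy x hx zx
    by_cases ux : G.Adj u x
    · left
      refine ⟨ux, ?_⟩
      by_contra xr
      have xy : ¬ G.Adj x y := fun h1 => hX.tri z hz x hx y h.hy zx h1 zy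
      exact st_e2 hg hX h.hr h.hy ry ur uy hx hz ux xr xy uz (Or.inr zy) zx.symm
    · right
      have xb : G.Adj x b := st_e3 hbl hg hX h.hr h.hy ry ur uy hx hz h.hb ux uz (Or.inr zy)
        zx.symm ub br by'
      exact (ca2 h h.hb hx h.vb h.ab.symm).1 xb
  have n4 : ∀ z ∈ X, G.Adj u z → G.Adj z r → ∀ x ∈ X, G.Adj z x →
      (G.Adj u x ∧ G.Adj x y) := by
    intro z hz uz zr x hx zx
    by_cases ux : G.Adj u x
    · refine ⟨ux, ?_⟩
      by_contra xy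
      have xr : ¬ G.Adj x r := fun h1 => hX.tri z hz x hx r h.hr zx h1 zr
      exact st_e2 hg hX h.hr h.hy ry ur uy hx hz ux xr xy uz (Or.inl zr) zx.symm
    · exfalso
      exact st_e7 hbl hg hX h.hr h.hy ry ur uy h.ha hx h.hr hz h.hb ua ux ur uz ry zr
        h.ra.symm zx.symm ub br by'
  have hZ : X.filter (fun x => ((G.Adj v x ∧ G.Adj x b) ∨ (G.Adj v x ∧ G.Adj x a)) ∨
      ((G.Adj u x ∧ G.Adj x y) ∨ (G.Adj u x ∧ G.Adj x r))) = X := by
    apply hX.conn _ (Finset.filter_subset _ _)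
    · exact ⟨a, by simp [h.ha, h.va, h.ab]⟩
    · intro z hz x hx zx
      simp only [Finset.mem_filter] at hz ⊢
      obtain ⟨hz, h1⟩ := hz
      refine ⟨hx, ?_⟩
      rcases h1 with (h1 | h1) | (h1 | h1)
      · rcases n1 z hz h1.1 h1.2 x hx zx with h2 | h2
        · exact Or.inl (Or.inr h2)
        · exact Or.inr (Or.inl h2)
      · exact Or.inl (Or.inl (n2 z hz h1.1 h1.2 x hx zx))
      · rcases n3 z hz h1.1 h1.2 x hx zx with h2 | h2
        · exact Or.inr (Or.inr h2)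
        · exact Or.inl (Or.inl h2)
      · exact Or.inr (Or.inl (n4 z hz h1.1 h1.2 x hx zx))
  have main : ∀ x ∈ X, ∀ x' ∈ X, G.Adj x x' →
      ((G.Adj v x ∧ G.Adj x b) ∨ (G.Adj u x ∧ G.Adj x r)) →
      ((G.Adj v x' ∧ G.Adj x' b) ∨ (G.Adj u x' ∧ G.Adj x' r)) → False := by
    intro x hx x' hx' xx h1 h2
    rcases h1 with h1 | h1 <;> rcases h2 with h2 | h2
    · exact hX.tri x hx x' hx' b h.hb xx h2.2 h1.2
    · exact f1 x hx (n4 x' hx' h2.1 h2.2 x hx xx.symm).1 h1.2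
    · exact f1 x' hx' (n4 x hx h1.1 h1.2 x' hx' xx).1 h2.2
    · exact hX.tri x hx x' hx' r h.hr xx h2.2 h1.2
  have main2 : ∀ x ∈ X, ∀ x' ∈ X, G.Adj x x' →
      ¬ ((G.Adj v x ∧ G.Adj x b) ∨ (G.Adj u x ∧ G.Adj x r)) →
      ((G.Adj v x' ∧ G.Adj x' b) ∨ (G.Adj u x' ∧ G.Adj x' r)) := by
    intro x hx x' hx' xx h1
    push Not at h1
    have hxZ := hx
    rw [← hZ, Finset.mem_filter] at hxZ
    rcases hxZ.2 with (h3 | h3) | (h3 | h3)
    · exact absurd h3.2 (h1.1 h3.1)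
    · exact Or.inl (n2 x hx h3.1 h3.2 x' hx' xx)
    · exact (n3 x hx h3.1 h3.2 x' hx' xx).symm
    · exact absurd h3.2 (h1.2 h3.1)
  obtain ⟨x, hx, x', hx', hxx, hc⟩ := hX.nb
    (fun x => decide ((G.Adj v x ∧ G.Adj x b) ∨ (G.Adj u x ∧ G.Adj x r)))
  by_cases h1 : (G.Adj v x ∧ G.Adj x b) ∨ (G.Adj u x ∧ G.Adj x r)
  · have h2 : (G.Adj v x' ∧ G.Adj x' b) ∨ (G.Adj u x' ∧ G.Adj x' r) := by
      have := hc
      simp only [h1, decide_true] at this
      exact of_decide_eq_true this.symm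
    exact main x hx x' hx' hxx h1 h2
  · have h2 := main2 x hx x' hx' hxx h1
    have := hc
    simp only [h1, h2, decide_true, decide_false] at this
    exact absurd this (by decide)

/-- (A1') -/
theorem ca5 {v a b y r : V} (h : CA G X v a b y r) {u b1 b2 : V} (hb1 : b1 ∈ X)
    (vb1 : G.Adj v b1) (b1a : G.Adj b1 a) (hb2 : b2 ∈ X) (vb2 : G.Adj v b2) (b2a : G.Adj b2 a)
    (ub1 : G.Adj u b1) (uv : ¬ G.Adj u v) : G.Adj u b2 := by
  by_contra ub2
  have h' : CA G X v a b1 y r := ca_rebase h h.ha hb1 h.hr h.va h.ab vb1 b1a h.ra h.rv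
  have ua := ca4 h' ub1 uv
  exact h.s6.gem a u b1 v b2 ua.symm b1a.symm h.va.symm b2a.symm ub1 vb1.symm vb2 uv ub2
    (fun h1 => h.s6.good.tri b1 hb1 b2 hb2 a h.ha h1 b2a b1a)

/-- `u` is mixed on `U2` -/
structure DD (G : SimpleGraph V) (X : Finset V) (v a u b1 b2 : V) : Prop where
  hu : u ∉ X
  hb1 : b1 ∈ X
  hb2 : b2 ∈ X
  vb1 : G.Adj v b1
  vb2 : G.Adj v b2
  b1a : G.Adj b1 a
  b2a : G.Adj b2 a
  ub1 : G.Adj u b1
  ub2 : ¬ G.Adj u b2

theorem ca_uv {v a b y r u b1 b2 : V} (h : CA G X v a b y r) (d : DD G X v a u b1 b2) :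
    G.Adj u v := by
  by_contra uv
  exact d.ub2 (ca5 h d.hb1 d.vb1 d.b1a d.hb2 d.vb2 d.b2a d.ub1 uv)

theorem ca_b12 {v a b y r u b1 b2 : V} (h : CA G X v a b y r) (d : DD G X v a u b1 b2) :
    ¬ G.Adj b1 b2 :=
  fun h1 => h.s6.good.tri b1 d.hb1 b2 d.hb2 a h.ha h1 d.b2a d.b1a

/-- (A2), first part -/
theorem ca6 {v a b y r u b1 b2 : V} (h : CA G X v a b y r) (d : DD G X v a u b1 b2) {a' : V}
    (ha' : a' ∈ X) (va' : G.Adj v a') (a'b : G.Adj a' b) : G.Adj u a' := by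
  by_contra ua'
  have h1 := st_e1 h.s6.gem h.s6.good h.ha h.hb h.ab h.va h.vb ha' d.hb1 va' d.vb1 a'b d.b1a
  have h2 := st_e1 h.s6.gem h.s6.good h.ha h.hb h.ab h.va h.vb ha' d.hb2 va' d.vb2 a'b d.b2a
  exact h.s6.gem v u b1 a' b2 (ca_uv h d).symm d.vb1 va' d.vb2 d.ub1 h1.symm h2 ua' d.ub2
    (ca_b12 h d)

/-- (A2), second part -/
theorem ca7 {v a b y r u b1 b2 : V} (h : CA G X v a b y r) (d : DD G X v a u b1 b2) {y' : V}
    (hy' : y' ∈ X) (vy' : G.Adj v y') (ya' : ¬ G.Adj y' a) (yb' : ¬ G.Adj y' b) :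
    ¬ G.Adj u y' := by
  intro uy'
  have ua := ca6 h d h.ha h.va h.ab
  have h1 := st_e2 h.s6.gem h.s6.good h.ha h.hb h.ab h.va h.vb hy' d.hb2 vy' ya' yb' d.vb2
    (Or.inl d.b2a)
  exact h.s6.gem v y' u a b2 vy' (ca_uv h d).symm h.va d.vb2 uy'.symm ua d.b2a.symm ya' h1
    d.ub2

/-- (A3) -/
theorem ca8 {v a b y r u b1 b2 : V} (h : CA G X v a b y r) (d : DD G X v a u b1 b2) {x : V}
    (hx : x ∈ X) (ux : G.Adj u x) : G.Adj v x ∧ (G.Adj x a ∨ G.Adj x b) := by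
  have hX := h.s6.good
  have hg := h.s6.gem
  have hbl := h.s6.bull
  have ua := ca6 h d h.ha h.va h.ab
  have uy := ca7 h d h.hy h.vy h.ya h.yb
  by_cases xb1 : G.Adj x b1
  · have := (ca2 h d.hb1 hx d.vb1 d.b1a).1 xb1
    exact ⟨this.1, Or.inr this.2⟩
  by_cases xa : G.Adj x a
  · by_cases vx : G.Adj v x
    · exact ⟨vx, Or.inl xa⟩
    · exfalso
      have xy := st_e3 hbl hg hX h.ha h.hb h.ab h.va h.vb hx h.ha h.hy vx h.va (Or.inr h.ab)
        xa h.vy h.ya h.yb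
      have b2y := st_e6 hbl hg hX h.ha d.hb1 d.b1a.symm ua d.ub1 d.hb2 h.hy h.ha hx d.ub2 uy
        ua ux d.b1a.symm xa d.b2a xy.symm
      exact st_e2 hg hX h.ha h.hb h.ab h.va h.vb h.hy d.hb2 h.vy h.ya h.yb d.vb2
        (Or.inl d.b2a) b2y.symm
  · have b2x := st_e3 hbl hg hX h.ha d.hb1 d.b1a.symm ua d.ub1 d.hb2 h.ha hx d.ub2 ua
      (Or.inr d.b1a.symm) d.b2a ux xa xb1
    have := (ca2 h d.hb2 hx d.vb2 d.b2a).1 b2x.symm
    exact ⟨this.1, Or.inr this.2⟩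

/-- (A4), complete case -/
theorem ca9 {v a b y r u b1 b2 : V} (h : CA G X v a b y r) (d : DD G X v a u b1 b2) {w : V}
    (wU : ∀ b' ∈ X, G.Adj v b' → G.Adj b' a → G.Adj w b') : G.Adj w u := by
  by_contra wu
  have wb1 := wU b1 d.hb1 d.vb1 d.b1a
  have wb2 := wU b2 d.hb2 d.vb2 d.b2a
  have ua := ca6 h d h.ha h.va h.ab
  by_cases wv : G.Adj w v
  · exact h.s6.gem v u b1 w b2 (ca_uv h d).symm d.vb1 wv.symm d.vb2 d.ub1 wb1.symm wb2
      (fun h1 => wu h1.symm) d.ub2 (ca_b12 h d)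
  · have wa := ca4 h (wU b h.hb h.vb h.ab.symm) wv
    exact h.s6.gem a u b1 w b2 ua.symm d.b1a.symm wa.symm d.b2a.symm d.ub1 wb1.symm wb2
      (fun h1 => wu h1.symm) d.ub2 (ca_b12 h d)

/-- (A4), anticomplete case -/
theorem ca10 {v a b y r u b1 b2 : V} (h : CA G X v a b y r) (d : DD G X v a u b1 b2) {w : V}
    (hw : w ∉ X) (wU : ∀ b' ∈ X, G.Adj v b' → G.Adj b' a → ¬ G.Adj w b') : ¬ G.Adj w u := by
  intro wu
  have hX := h.s6.good
  have hg := h.s6.gem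
  have hbl := h.s6.bull
  have wb1 := wU b1 d.hb1 d.vb1 d.b1a
  have wb2 := wU b2 d.hb2 d.vb2 d.b2a
  have wa' : ∀ a' ∈ X, G.Adj v a' → G.Adj a' b → G.Adj w a' := by
    intro a' ha' va' a'b
    by_contra hwa
    have h1 := st_e1 hg hX h.ha h.hb h.ab h.va h.vb ha' d.hb1 va' d.vb1 a'b d.b1a
    have h2 := st_e1 hg hX h.ha h.hb h.ab h.va h.vb ha' d.hb2 va' d.vb2 a'b d.b2a
    exact hbl w u a' b1 b2 (ca6 h d ha' va' a'b) h1 d.ub1 wu h2.symm hwa wb1
      (fun h3 => d.ub2 h3.symm) (fun h3 => ca_b12 h d h3.symm) wb2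
  have wv : G.Adj w v := by
    by_contra hwv
    exact hbl w u v b1 b2 (ca_uv h d) d.vb1 d.ub1 wu d.vb2.symm hwv wb1
      (fun h3 => d.ub2 h3.symm) (fun h3 => ca_b12 h d h3.symm) wb2
  have iv : ∀ a' ∈ X, G.Adj v a' → G.Adj a' b → ∀ t ∈ X, G.Adj w t → ¬ G.Adj a' t := by
    intro a' ha' va' a'b t ht wt a't
    by_cases vt : G.Adj v t
    · have ta : G.Adj t a := (st_e8 hg hX h.hb h.ha h.ab.symm h.vb h.va ha' ht va' a'b vt).1
        a't.symm
      exact wU t ht vt ta wt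
    · have h1 := st_e1 hg hX h.ha h.hb h.ab h.va h.vb ha' d.hb1 va' d.vb1 a'b d.b1a
      exact hg a' t w v b1 a't (wa' a' ha' va' a'b).symm va'.symm h1 wt.symm wv d.vb1
        (fun h3 => vt h3.symm) (fun h3 => hX.tri t ht a' ha' b1 d.hb1 a't.symm h1 h3) wb1
  obtain ⟨s0, hs0, s1, hs1, s01, ws0, ws1⟩ := s6_c h.s6 hw
  obtain ⟨t, ht, wt, s, hs, ws, hss, ts⟩ := st_e4 hg hX hs0 hs1 s01 ws0 ws1
  have ta : G.Adj t a := st_e3 hbl hg hX hs0 hs1 s01 ws0 ws1 ht hs h.ha wt ws hss ts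
    (wa' a h.ha h.va h.ab) (iv a h.ha h.va h.ab s0 hs0 ws0) (iv a h.ha h.va h.ab s1 hs1 ws1)
  have hs' : ∃ s' ∈ X, G.Adj w s' ∧ G.Adj s s' := by
    rcases hss with h1 | h1
    · exact ⟨s0, hs0, ws0, h1⟩
    · exact ⟨s1, hs1, ws1, h1⟩
  obtain ⟨s', hs', ws', ss'⟩ := hs'
  by_cases vt : G.Adj v t
  · have := (ca2 h ht hs vt ta).1 ts.symm
    exact iv s hs this.1 this.2 s' hs' ws' ss'
  · have nu : ∀ p ∈ X, ∀ q ∈ X, G.Adj w p → G.Adj w q → G.Adj p q → ¬ G.Adj u p := by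
      intro p hp q hq wp wq pq up
      obtain ⟨vp, h1 | h1⟩ := ca8 h d hp up
      · exact wU p hp vp h1 wp
      · exact iv p hp vp h1 q hq wq pq
    exact hbl u w s s' t ws ss' ws' wu.symm ts (nu s hs s' hs' ws ws' ss')
      (nu s' hs' s hs ws' ws ss'.symm) (fun h1 => wt h1.symm)
      (fun h1 => hX.tri t ht s hs s' hs' ts ss' h1)
      (fun h1 => vt (ca8 h d ht h1).1)

theorem ca_false {v a b y r : V} (h : CA G X v a b y r) : False := by
  classical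
  have hX := h.s6.good
  have hg := h.s6.gem
  obtain ⟨b2, hb2, hne, vb2, b2a⟩ := ca3 h
  set M : Finset V := Finset.univ.filter (fun w => (w ∈ X ∧ G.Adj v w ∧ G.Adj w a) ∨
    ∃ c1 c2, DD G X v a w c1 c2) with hM
  have hMu : M = Finset.univ := by
    apply h.s6.prime
    · have h1 : ({b, b2} : Finset V) ⊆ M := by
        intro z hz
        simp only [Finset.mem_insert, Finset.mem_singleton] at hz
        rw [hM, Finset.mem_filter]
        refine ⟨Finset.mem_univ _, Or.inl ?_⟩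
        rcases hz with rfl | rfl
        · exact ⟨h.hb, h.vb, h.ab.symm⟩
        · exact ⟨hb2, vb2, b2a⟩
      calc 2 = ({b, b2} : Finset V).card := (Finset.card_pair hne.symm).symm
        _ ≤ M.card := Finset.card_le_card h1
    · intro w hw
      have hw1 : ¬ (w ∈ X ∧ G.Adj v w ∧ G.Adj w a) := by
        intro h1; exact hw (by rw [hM, Finset.mem_filter]; exact ⟨Finset.mem_univ _, Or.inl h1⟩)
      have hw2 : ¬ ∃ c1 c2, DD G X v a w c1 c2 := by
        intro h1; exact hw (by rw [hM, Finset.mem_filter]; exact ⟨Finset.mem_univ _, Or.inr h1⟩)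
      by_cases hwX : w ∈ X
      · by_cases h1 : G.Adj v w ∧ G.Adj w b
        · left
          intro x hx
          rw [hM, Finset.mem_filter] at hx
          rcases hx.2 with h2 | ⟨c1, c2, d⟩
          · exact st_e1 hg hX h.ha h.hb h.ab h.va h.vb hwX h2.1 h1.1 h2.2.1 h1.2 h2.2.2
          · exact (ca6 h d hwX h1.1 h1.2).symm
        · right
          intro x hx hwx
          rw [hM, Finset.mem_filter] at hx
          rcases hx.2 with h2 | ⟨c1, c2, d⟩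
          · exact h1 ((ca2 h h2.1 hwX h2.2.1 h2.2.2).1 hwx)
          · obtain ⟨vw, h3 | h3⟩ := ca8 h d hwX hwx.symm
            · exact hw1 ⟨hwX, vw, h3⟩
            · exact h1 ⟨vw, h3⟩
      · by_cases h1 : ∃ c1 ∈ X, G.Adj v c1 ∧ G.Adj c1 a ∧ G.Adj w c1
        · left
          obtain ⟨c1, hc1, vc1, c1a, wc1⟩ := h1
          have wU : ∀ b' ∈ X, G.Adj v b' → G.Adj b' a → G.Adj w b' := by
            intro b' hb' vb' b'a
            by_contra wb'
            exact hw2 ⟨c1, b', ⟨hwX, hc1, hb', vc1, vb', c1a, b'a, wc1, wb'⟩⟩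
          intro x hx
          rw [hM, Finset.mem_filter] at hx
          rcases hx.2 with h2 | ⟨c1, c2, d⟩
          · exact wU x h2.1 h2.2.1 h2.2.2
          · exact ca9 h d wU
        · right
          have wU : ∀ b' ∈ X, G.Adj v b' → G.Adj b' a → ¬ G.Adj w b' := by
            intro b' hb' vb' b'a wb'
            exact h1 ⟨b', hb', vb', b'a, wb'⟩
          intro x hx
          rw [hM, Finset.mem_filter] at hx
          rcases hx.2 with h2 | ⟨c1, c2, d⟩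
          · exact wU x h2.1 h2.2.1 h2.2.2
          · exact ca10 h d hwX wU
  have hvM : v ∈ M := by rw [hMu]; exact Finset.mem_univ _
  rw [hM, Finset.mem_filter] at hvM
  rcases hvM.2 with h2 | ⟨c1, c2, d⟩
  · exact h.hv h2.1
  · exact d.ub2 d.vb2

theorem claimA (h : S6 G X) {v a b y : V} (hv : v ∉ X) (ha : a ∈ X) (hb : b ∈ X)
    (ab : G.Adj a b) (va : G.Adj v a) (vb : G.Adj v b) (hy : y ∈ X) (vy : G.Adj v y) :
    G.Adj y a ∨ G.Adj y b := by
  by_contra hne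
  push Not at hne
  obtain ⟨ya, yb⟩ := hne
  obtain ⟨r, hr, rv, u, hu, vu, h1, ru⟩ := st_e4 h.gem h.good ha hb ab va vb
  have yu := st_e2 h.gem h.good ha hb ab va vb hy hu vy ya yb vu h1
  rcases h1 with h1 | h1
  · exact ca_false (G := G) (X := X) (v := v) (a := u) (b := a) (y := y) (r := r)
      ⟨h, hv, hu, ha, hy, hr, h1, vu, va, vy, yu, ya, ru, rv⟩
  · exact ca_false (G := G) (X := X) (v := v) (a := u) (b := b) (y := y) (r := r)
      ⟨h, hv, hu, hb, hy, hr, h1, vu, vb, vy, yu, yb, ru, rv⟩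

end BullS6
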