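import Mathlib
import Pool.Agent.H3.BF.ClaimA

/-!
Row CLAIM B.  Proof.  By `s6_c` take edges `a b` of `X` in `N(v)` and `a' b'` of `X` in `N(v')`.
By `claimA`, `Y = N_X(v) = U1 ∪ U2` with `U1 = {x ∈ X | v ~ x, x ~ b}`, `U2 = {x ∈ X | v ~ x,
x ~ a}`, and `U1` is complete to `U2` (`st_e1`); the same for `v'`: `U1', U2'`.
Suppose that there is no edge of `X` inside `N(v) ∩ N(v')`.
(1) If some `p ∈ X` is adjacent to `v` and `v'`: `p` has a neighbour `q ∈ X` in `N(v)` (`b` or `a`)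
and a neighbour `q' ∈ X` in `N(v')`; then `¬ v' ~ q`, `¬ v ~ q'` (assumption) and `¬ q ~ q'` (triangle
with `p`), so `q v v' q'` is an induced path in `N(p)`: `GemFree`.
(2) So no vertex of `X` is adjacent to both `v` and `v'`.  If `p ∈ X`, `v ~ p`, `x ∈ X`, `x ~ p`,
`¬ v ~ x` then `v' ~ x`: else with `q` = the neighbour of `p` in `Y` (`a` or `b`): triangle `v p q`,
pendants `v' - v`, `x - p`: bull (`¬ x ~ q` by triangle-freeness, `¬ x ~ v'`).  Symmetrically for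
`v'`.  So `Y ∪ Y'` is closed in `X` and `X = Y ∪ Y'` (`good.conn`).
(3) Let `E i j` (i, j ∈ {1, 2}) mean that there is an edge between `Ui` and `Uj'`.  By `st_e6` for
`v` (a vertex of `Y'` is not adjacent to `v`): not `E 1 j` and `E 2 j` together, otherwise
`r, r' ∈ Uj'` with `r ~ r'`, both adjacent to the same vertex (`a'` or `b'`): triangle.
By `st_e6` for `v'`: not `E i 1` and `E i 2` together.
(4) So (`E 1 2` and `E 2 1` both fail) or (`E 1 1` and `E 2 2` both fail).  In the first case colour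
`U1 ∪ U2'` true and `U2 ∪ U1'` false, in the second `U1 ∪ U1'` true and `U2 ∪ U2'` false: a proper
2-colouring of `X`, contradiction to `good.nb`.
-/

namespace BullS6

open Finset

variable {V : Type*} [Fintype V] [DecidableEq V] {G : SimpleGraph V} {X : Finset V}

private theorem ClaimB_step1 (h : S6 G X) {v v' : V} (hv : v ∉ X) (hv' : v' ∉ X) (vv : G.Adj v v')
    (hno : ∀ x ∈ X, ∀ y ∈ X, G.Adj x y → G.Adj v x → G.Adj v y → G.Adj v' x → ¬ G.Adj v' y)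
    {a b a' b' : V} (ha : a ∈ X) (hb : b ∈ X) (ab : G.Adj a b) (va : G.Adj v a) (vb : G.Adj v b)
    (ha' : a' ∈ X) (hb' : b' ∈ X) (ab' : G.Adj a' b') (va' : G.Adj v' a') (vb' : G.Adj v' b')
    {p : V} (hp : p ∈ X) (vp : G.Adj v p) : ¬ G.Adj v' p := by
  intro vp'
  obtain ⟨q, hq, vq, pq⟩ : ∃ q ∈ X, G.Adj v q ∧ G.Adj p q := by
    rcases claimA h hv ha hb ab va vb hp vp with h1 | h1
    · exact ⟨a, ha, va, h1⟩
    · exact ⟨b, hb, vb, h1⟩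
  obtain ⟨q', hq', vq', pq'⟩ : ∃ q ∈ X, G.Adj v' q ∧ G.Adj p q := by
    rcases claimA h hv' ha' hb' ab' va' vb' hp vp' with h1 | h1
    · exact ⟨a', ha', va', h1⟩
    · exact ⟨b', hb', vb', h1⟩
  have h1 : ¬ G.Adj v' q := hno p hp q hq pq vp vq vp'
  have h2 : ¬ G.Adj v q' := fun h3 => hno p hp q' hq' pq' vp h3 vp' vq'
  have h3 : ¬ G.Adj q q' := fun h4 => h.good.tri p hp q hq q' hq' pq h4 pq'
  exact h.gem p q v v' q' pq vp.symm vp'.symm pq' vq.symm vv vq' (fun h4 => h1 h4.symm) h3 h2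

private theorem ClaimB_step2 (h : S6 G X) {v v' : V} (hv : v ∉ X) (vv : G.Adj v v')
    {a b : V} (ha : a ∈ X) (hb : b ∈ X) (ab : G.Adj a b) (va : G.Adj v a) (vb : G.Adj v b)
    (h1 : ∀ p ∈ X, G.Adj v p → ¬ G.Adj v' p)
    {p x : V} (hp : p ∈ X) (vp : G.Adj v p) (hx : x ∈ X) (xp : G.Adj x p) (vx : ¬ G.Adj v x) :
    G.Adj v' x := by
  by_contra vx'
  obtain ⟨q, hq, vq, pq⟩ : ∃ q ∈ X, G.Adj v q ∧ G.Adj p q := by
    rcases claimA h hv ha hb ab va vb hp vp with h1 | h1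
    · exact ⟨a, ha, va, h1⟩
    · exact ⟨b, hb, vb, h1⟩
  exact h.bull v' v p q x vp pq vq vv.symm xp (h1 p hp vp) (h1 q hq vq) (fun h4 => vx h4.symm)
    (fun h4 => h.good.tri x hx p hp q hq xp pq h4) vx'

private theorem ClaimB_cross (h : S6 G X) {v v' : V}
    {a b : V} (ha : a ∈ X) (hb : b ∈ X) (ab : G.Adj a b) (va : G.Adj v a) (vb : G.Adj v b)
    (h1 : ∀ p ∈ X, G.Adj v' p → ¬ G.Adj v p) {t : V} (ht : t ∈ X)
    {u w u2 w2 : V} (hu : u ∈ X) (hw : w ∈ X) (hu2 : u2 ∈ X) (hw2 : w2 ∈ X)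
    (vu : G.Adj v u) (ub : G.Adj u b) (vw : G.Adj v' w) (wt : G.Adj w t) (uw : G.Adj u w)
    (vu2 : G.Adj v u2) (ua2 : G.Adj u2 a) (vw2 : G.Adj v' w2) (wt2 : G.Adj w2 t)
    (uw2 : G.Adj u2 w2) : False := by
  have h2 := st_e6 h.bull h.gem h.good ha hb ab va vb hw hw2 hu hu2 (h1 w hw vw) (h1 w2 hw2 vw2)
    vu vu2 ub ua2 uw.symm uw2.symm
  exact h.good.tri w hw w2 hw2 t ht h2 wt2 wt

private theorem ClaimB_cls (h : S6 G X) {v : V} (hv : v ∉ X) {a b : V} (ha : a ∈ X) (hb : b ∈ X)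
    (ab : G.Adj a b) (va : G.Adj v a) (vb : G.Adj v b) {x : V} (hx : x ∈ X) (vx : G.Adj v x) :
    (G.Adj x b ∧ ¬ G.Adj x a) ∨ (G.Adj x a ∧ ¬ G.Adj x b) := by
  have h1 : ¬ (G.Adj x a ∧ G.Adj x b) := fun h2 => h.good.tri x hx a ha b hb h2.1 ab h2.2
  rcases claimA h hv ha hb ab va vb hx vx with h2 | h2
  · exact Or.inr ⟨h2, fun h3 => h1 ⟨h2, h3⟩⟩
  · exact Or.inl ⟨h2, fun h3 => h1 ⟨h3, h2⟩⟩

private theorem ClaimB_prop {vx wx xa xb xs xt vy wy ya yb ys yt : Prop}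
    (cx : (vx ∧ ¬ wx ∧ xb ∧ ¬ xa) ∨ (vx ∧ ¬ wx ∧ xa ∧ ¬ xb) ∨ (wx ∧ ¬ vx ∧ xs ∧ ¬ xt) ∨
      (wx ∧ ¬ vx ∧ xt ∧ ¬ xs))
    (cy : (vy ∧ ¬ wy ∧ yb ∧ ¬ ya) ∨ (vy ∧ ¬ wy ∧ ya ∧ ¬ yb) ∨ (wy ∧ ¬ vy ∧ ys ∧ ¬ yt) ∨
      (wy ∧ ¬ vy ∧ yt ∧ ¬ ys))
    (hc : ((vx ∧ xb) ∨ (wx ∧ xs)) ↔ ((vy ∧ yb) ∨ (wy ∧ ys)))
    (k1 : vx → xb → wy → ¬ ys) (k2 : vx → xa → wy → ¬ yt) (k3 : vy → yb → wx → ¬ xs)
    (k4 : vy → ya → wx → ¬ xt) (t1 : xb → ¬ yb) (t2 : xa → ¬ ya) (t3 : xs → ¬ ys)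
    (t4 : xt → ¬ yt) : False := by
  rcases cx with ⟨c1, c2, c3, c4⟩ | ⟨c1, c2, c3, c4⟩ | ⟨c1, c2, c3, c4⟩ | ⟨c1, c2, c3, c4⟩
  · rcases cy with ⟨d1, d2, d3, d4⟩ | ⟨d1, d2, d3, d4⟩ | ⟨d1, d2, d3, d4⟩ | ⟨d1, d2, d3, d4⟩
    · exact t1 c3 d3
    · rcases hc.1 (Or.inl ⟨c1, c3⟩) with h | h
      · exact d4 h.2
      · exact d2 h.1
    · exact k1 c1 c3 d1 d3
    · rcases hc.1 (Or.inl ⟨c1, c3⟩) with h | h
      · exact d2 h.1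
      · exact d4 h.2
  · rcases cy with ⟨d1, d2, d3, d4⟩ | ⟨d1, d2, d3, d4⟩ | ⟨d1, d2, d3, d4⟩ | ⟨d1, d2, d3, d4⟩
    · rcases hc.2 (Or.inl ⟨d1, d3⟩) with h | h
      · exact c4 h.2
      · exact c2 h.1
    · exact t2 c3 d3
    · rcases hc.2 (Or.inr ⟨d1, d3⟩) with h | h
      · exact c4 h.2
      · exact c2 h.1
    · exact k2 c1 c3 d1 d3
  · rcases cy with ⟨d1, d2, d3, d4⟩ | ⟨d1, d2, d3, d4⟩ | ⟨d1, d2, d3, d4⟩ | ⟨d1, d2, d3, d4⟩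
    · exact k3 d1 d3 c1 c3
    · rcases hc.1 (Or.inr ⟨c1, c3⟩) with h | h
      · exact d4 h.2
      · exact d2 h.1
    · exact t3 c3 d3
    · rcases hc.1 (Or.inr ⟨c1, c3⟩) with h | h
      · exact d2 h.1
      · exact d4 h.2
  · rcases cy with ⟨d1, d2, d3, d4⟩ | ⟨d1, d2, d3, d4⟩ | ⟨d1, d2, d3, d4⟩ | ⟨d1, d2, d3, d4⟩
    · rcases hc.2 (Or.inl ⟨d1, d3⟩) with h | h
      · exact c2 h.1
      · exact c4 h.2
    · exact k4 d1 d3 c1 c3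
    · rcases hc.2 (Or.inr ⟨d1, d3⟩) with h | h
      · exact c2 h.1
      · exact c4 h.2
    · exact t4 c3 d3

theorem claimB (h : S6 G X) {v v' : V} (hv : v ∉ X) (hv' : v' ∉ X) (vv : G.Adj v v') :
    ∃ x ∈ X, ∃ y ∈ X, G.Adj x y ∧ G.Adj v x ∧ G.Adj v y ∧ G.Adj v' x ∧ G.Adj v' y := by
  classical
  by_contra hcon
  have hno : ∀ x ∈ X, ∀ y ∈ X, G.Adj x y → G.Adj v x → G.Adj v y → G.Adj v' x → ¬ G.Adj v' y :=
    fun x hx y hy xy vx vy vx' vy' => hcon ⟨x, hx, y, hy, xy, vx, vy, vx', vy'⟩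
  obtain ⟨a, ha, b, hb, ab, va, vb⟩ := s6_c h hv
  obtain ⟨a', ha', b', hb', ab', va', vb'⟩ := s6_c h hv'
  have h1 : ∀ p ∈ X, G.Adj v p → ¬ G.Adj v' p := fun p hp vp =>
    ClaimB_step1 h hv hv' vv hno ha hb ab va vb ha' hb' ab' va' vb' hp vp
  have h1' : ∀ p ∈ X, G.Adj v' p → ¬ G.Adj v p := fun p hp vp vp' => h1 p hp vp' vp
  have hcl : X.filter (fun x => G.Adj v x ∨ G.Adj v' x) = X := by
    apply h.good.conn _ (Finset.filter_subset _ _)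
    · exact ⟨a, by simp [ha, va]⟩
    · intro z hz x hx hzx
      simp only [Finset.mem_filter] at hz ⊢
      obtain ⟨hz, hz2⟩ := hz
      refine ⟨hx, ?_⟩
      rcases hz2 with vz | vz
      · by_cases vx : G.Adj v x
        · exact Or.inl vx
        · exact Or.inr (ClaimB_step2 h hv vv ha hb ab va vb h1 hz vz hx hzx.symm vx)
      · by_cases vx : G.Adj v' x
        · exact Or.inr vx
        · exact Or.inl (ClaimB_step2 h hv' vv.symm ha' hb' ab' va' vb' h1' hz vz hx hzx.symm vx)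
  have hcov : ∀ x ∈ X, G.Adj v x ∨ G.Adj v' x := by
    intro x hx
    rw [← hcl, Finset.mem_filter] at hx
    exact hx.2
  -- the four classes
  have hcls : ∀ x ∈ X, (G.Adj v x ∧ ¬ G.Adj v' x ∧ G.Adj x b ∧ ¬ G.Adj x a) ∨
      (G.Adj v x ∧ ¬ G.Adj v' x ∧ G.Adj x a ∧ ¬ G.Adj x b) ∨
      (G.Adj v' x ∧ ¬ G.Adj v x ∧ G.Adj x b' ∧ ¬ G.Adj x a') ∨
      (G.Adj v' x ∧ ¬ G.Adj v x ∧ G.Adj x a' ∧ ¬ G.Adj x b') := by
    intro x hx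
    rcases hcov x hx with vx | vx
    · rcases ClaimB_cls h hv ha hb ab va vb hx vx with h2 | h2
      · exact Or.inl ⟨vx, h1 x hx vx, h2⟩
      · exact Or.inr (Or.inl ⟨vx, h1 x hx vx, h2⟩)
    · rcases ClaimB_cls h hv' ha' hb' ab' va' vb' hx vx with h2 | h2
      · exact Or.inr (Or.inr (Or.inl ⟨vx, h1' x hx vx, h2⟩))
      · exact Or.inr (Or.inr (Or.inr ⟨vx, h1' x hx vx, h2⟩))
  -- adjacency between the classes
  let E : V → V → Prop := fun s t => ∃ u ∈ X, ∃ w ∈ X, G.Adj v u ∧ G.Adj u s ∧ G.Adj v' w ∧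
    G.Adj w t ∧ G.Adj u w
  have hE1 : ∀ t ∈ X, ¬ (E b t ∧ E a t) := by
    rintro t ht ⟨⟨u, hu, w, hw, e1, e2, e3, e4, e5⟩, u2, hu2, w2, hw2, f1, f2, f3, f4, f5⟩
    exact ClaimB_cross h ha hb ab va vb h1' ht hu hw hu2 hw2 e1 e2 e3 e4 e5 f1 f2 f3 f4 f5
  have hE2 : ∀ s ∈ X, ¬ (E s b' ∧ E s a') := by
    rintro s hs ⟨⟨u, hu, w, hw, e1, e2, e3, e4, e5⟩, u2, hu2, w2, hw2, f1, f2, f3, f4, f5⟩
    exact ClaimB_cross h ha' hb' ab' va' vb' h1 hs hw hu hw2 hu2 e3 e4 e1 e2 e5.symm f3 f4 f1 f2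
      f5.symm
  have hEb := hE1 b' hb'
  have hEa := hE1 a' ha'
  have hEb2 := hE2 b hb
  have hEa2 := hE2 a ha
  have hcase : (¬ E b a' ∧ ¬ E a b') ∨ (¬ E b b' ∧ ¬ E a a') := by tauto
  have T := h.good.tri
  have hsw : ∀ x : V, ((G.Adj v x ∧ ¬ G.Adj v' x ∧ G.Adj x b ∧ ¬ G.Adj x a) ∨
      (G.Adj v x ∧ ¬ G.Adj v' x ∧ G.Adj x a ∧ ¬ G.Adj x b) ∨
      (G.Adj v' x ∧ ¬ G.Adj v x ∧ G.Adj x b' ∧ ¬ G.Adj x a') ∨
      (G.Adj v' x ∧ ¬ G.Adj v x ∧ G.Adj x a' ∧ ¬ G.Adj x b')) →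
      ((G.Adj v x ∧ ¬ G.Adj v' x ∧ G.Adj x b ∧ ¬ G.Adj x a) ∨
      (G.Adj v x ∧ ¬ G.Adj v' x ∧ G.Adj x a ∧ ¬ G.Adj x b) ∨
      (G.Adj v' x ∧ ¬ G.Adj v x ∧ G.Adj x a' ∧ ¬ G.Adj x b') ∨
      (G.Adj v' x ∧ ¬ G.Adj v x ∧ G.Adj x b' ∧ ¬ G.Adj x a')) := by
    rintro x (c | c | c | c)
    · exact Or.inl c
    · exact Or.inr (Or.inl c)
    · exact Or.inr (Or.inr (Or.inr c))
    · exact Or.inr (Or.inr (Or.inl c))
  rcases hcase with ⟨n1, n2⟩ | ⟨n1, n2⟩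
  · obtain ⟨x, hx, y, hy, xy, hc⟩ := h.good.nb
      (fun x => decide ((G.Adj v x ∧ G.Adj x b) ∨ (G.Adj v' x ∧ G.Adj x a')))
    have hc2 : ((G.Adj v x ∧ G.Adj x b) ∨ (G.Adj v' x ∧ G.Adj x a')) ↔
        ((G.Adj v y ∧ G.Adj y b) ∨ (G.Adj v' y ∧ G.Adj y a')) := decide_eq_decide.1 hc
    have m1 : ∀ x ∈ X, ∀ y ∈ X, G.Adj x y → G.Adj v x → G.Adj x b → G.Adj v' y → ¬ G.Adj y a' :=
      fun x hx y hy xy e1 e2 e3 e4 => n1 ⟨x, hx, y, hy, e1, e2, e3, e4, xy⟩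
    have m2 : ∀ x ∈ X, ∀ y ∈ X, G.Adj x y → G.Adj v x → G.Adj x a → G.Adj v' y → ¬ G.Adj y b' :=
      fun x hx y hy xy e1 e2 e3 e4 => n2 ⟨x, hx, y, hy, e1, e2, e3, e4, xy⟩
    have k1 := m1 x hx y hy xy
    have k2 := m2 x hx y hy xy
    have k3 := m1 y hy x hx xy.symm
    have k4 := m2 y hy x hx xy.symm
    have t1 : G.Adj x b → ¬ G.Adj y b := fun p q => T x hx y hy b hb xy q p
    have t2 : G.Adj x a → ¬ G.Adj y a := fun p q => T x hx y hy a ha xy q p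
    have t3 : G.Adj x b' → ¬ G.Adj y b' := fun p q => T x hx y hy b' hb' xy q p
    have t4 : G.Adj x a' → ¬ G.Adj y a' := fun p q => T x hx y hy a' ha' xy q p
    exact ClaimB_prop (hsw _ (hcls x hx)) (hsw _ (hcls y hy)) hc2 k1 k2 k3 k4 t1 t2 t4 t3
  · obtain ⟨x, hx, y, hy, xy, hc⟩ := h.good.nb
      (fun x => decide ((G.Adj v x ∧ G.Adj x b) ∨ (G.Adj v' x ∧ G.Adj x b')))
    have hc2 : ((G.Adj v x ∧ G.Adj x b) ∨ (G.Adj v' x ∧ G.Adj x b')) ↔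
        ((G.Adj v y ∧ G.Adj y b) ∨ (G.Adj v' y ∧ G.Adj y b')) := decide_eq_decide.1 hc
    have m1 : ∀ x ∈ X, ∀ y ∈ X, G.Adj x y → G.Adj v x → G.Adj x b → G.Adj v' y → ¬ G.Adj y b' :=
      fun x hx y hy xy e1 e2 e3 e4 => n1 ⟨x, hx, y, hy, e1, e2, e3, e4, xy⟩
    have m2 : ∀ x ∈ X, ∀ y ∈ X, G.Adj x y → G.Adj v x → G.Adj x a → G.Adj v' y → ¬ G.Adj y a' :=
      fun x hx y hy xy e1 e2 e3 e4 => n2 ⟨x, hx, y, hy, e1, e2, e3, e4, xy⟩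
    have k1 := m1 x hx y hy xy
    have k2 := m2 x hx y hy xy
    have k3 := m1 y hy x hx xy.symm
    have k4 := m2 y hy x hx xy.symm
    have t1 : G.Adj x b → ¬ G.Adj y b := fun p q => T x hx y hy b hb xy q p
    have t2 : G.Adj x a → ¬ G.Adj y a := fun p q => T x hx y hy a ha xy q p
    have t3 : G.Adj x b' → ¬ G.Adj y b' := fun p q => T x hx y hy b' hb' xy q p
    have t4 : G.Adj x a' → ¬ G.Adj y a' := fun p q => T x hx y hy a' ha' xy q p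
    exact ClaimB_prop (hcls x hx) (hcls y hy) hc2 k1 k2 k3 k4 t1 t2 t3 t4

end BullS6
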