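import Mathlib
import Pool.Agent.H3.BF.ClaimB

/-!
Row CLAIMS C, D, E.

`claimC` (by induction on `Q`): `v ∉ X`, `a b` an edge of `X` in `N(v)`; for a clique `insert v Q`
outside `X` there is `s ∈ U1 = {x ∈ X | v ~ x, x ~ b}` complete to `Q`.
`Q = ∅`: `s = a`.  Step: `s` complete to `Q`, new `q ∉ Q`, `insert v (insert q Q)` a clique.  If
`q ~ s` done.  By `claimB` for `v, q` there is an edge `x x'` of `X` complete to `{v, q}`; by `claimA`
one of `x, x'` is adjacent to `b` (they are not both adjacent to `a` only; if `x ~ b` is false and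
`x' ~ b` is false then both are adjacent to `a`: triangle); call it `t ∈ U1`, `q ~ t`.  For `p ∈ Q`:
`p ~ t`, else `s p q t` is an induced path in `N(v)` (`s ~ p`, `p ~ q`, `q ~ t`, `¬ s ~ q`,
`¬ s ~ t` since both are adjacent to `b`, `¬ p ~ t`): `GemFree`.  So `t` is complete to `insert q Q`.

`claimE`: for every clique `L` of `G` there is an edge `x x'` of `X` such that `L ∪ {x, x'}` is a
clique.  `L ∩ X` has at most two vertices (`tri`).  If it has two vertices take them.  If
`L ∩ X = {x}`: when `L = {x}` take any neighbour of `x` in `X` (there is one by `good.conn` applied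
to `Z = {x}` — `X ≠ {x}` by `nb`); when `v ∈ L`, `v ∉ X`: `s6_c` for `v` gives `a b`; by `claimA`
`x ~ a` or `x ~ b`; if `x ~ a` then (`claimC` with `a b`, `Q = (L \ X).erase v`) there is `t ~ b`,
`t ∈ X`, `v ~ t`, complete to `L \ X`; `x ~ t` by `st_e1`.  If `x ~ b` the same with `a, b` exchanged.
If `L ∩ X = ∅`: `L = ∅`: any edge of `X`; `v ∈ L`: `claimC` twice (for `a b` and `b a`) gives
`s ~ b` and `t ~ a`, `s ~ t` by `st_e1`.
-/

namespace BullS6

open Finset

variable {V : Type*} [Fintype V] [DecidableEq V] {G : SimpleGraph V} {X : Finset V}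

theorem claimC (h : S6 G X) {v a b : V} (hv : v ∉ X) (ha : a ∈ X) (hb : b ∈ X)
    (ab : G.Adj a b) (va : G.Adj v a) (vb : G.Adj v b) (Q : Finset V) (hQ : ∀ q ∈ Q, q ∉ X)
    (hcl : G.IsClique (insert v (Q : Set V))) :
    ∃ s ∈ X, G.Adj v s ∧ G.Adj s b ∧ ∀ q ∈ Q, G.Adj q s := by
  induction Q using Finset.induction_on with
  | empty => exact ⟨a, ha, va, ab, by simp⟩
  | insert q Q hqQ ih =>
    obtain ⟨s, hs, vs, sb, hsQ⟩ := ih (fun p hp => hQ p (Finset.mem_insert_of_mem hp))
      (hcl.subset (by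
        intro p hp
        rcases hp with hp | hp
        · exact Or.inl hp
        · exact Or.inr (by simpa using Or.inr hp)))
    by_cases hqs : G.Adj q s
    · refine ⟨s, hs, vs, sb, ?_⟩
      intro p hp
      rcases Finset.mem_insert.1 hp with rfl | hp
      · exact hqs
      · exact hsQ p hp
    · have hqv : q ≠ v := by
        rintro rfl
        exact hqs vs
      have vq : G.Adj v q := hcl (by simp) (by simp) hqv.symm
      have hqX : q ∉ X := hQ q (by simp)
      obtain ⟨x, hx, x', hx', xx, vx, vx', qx, qx'⟩ := claimB h hv hqX vq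
      have key : ∃ t ∈ X, G.Adj v t ∧ G.Adj t b ∧ G.Adj q t := by
        by_cases h1 : G.Adj x b
        · exact ⟨x, hx, vx, h1, qx⟩
        · by_cases h2 : G.Adj x' b
          · exact ⟨x', hx', vx', h2, qx'⟩
          · exfalso
            have h3 := (claimA h hv ha hb ab va vb hx vx).resolve_right h1
            have h4 := (claimA h hv ha hb ab va vb hx' vx').resolve_right h2
            exact h.good.tri x hx x' hx' a ha xx h4 h3
      obtain ⟨t, ht, vt, tb, qt⟩ := key
      refine ⟨t, ht, vt, tb, ?_⟩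
      intro p hp
      rcases Finset.mem_insert.1 hp with rfl | hp
      · exact qt
      · have hp' := hp
        by_contra hpt
        have hpv : p ≠ v := by
          rintro rfl
          exact hpt vt
        have hpq : p ≠ q := fun hh => hqQ (hh ▸ hp')
        have vp : G.Adj v p := hcl (by simp) (by simp [hp]) hpv.symm
        have pq : G.Adj p q := hcl (by simp [hp]) (by simp) hpq
        have hsp := hsQ p hp
        have hst : ¬ G.Adj s t := fun h1 => h.good.tri s hs t ht b hb h1 tb sb
        exact h.gem v s p q t vs vp vq vt hsp.symm pq qt (fun h1 => hqs h1.symm) hst hpt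

omit [Fintype V] [DecidableEq V] in
private theorem ce_two {L : Finset V} (hL : G.IsClique (L : Set V)) {x x' : V}
    (xx : G.Adj x x') (h1 : ∀ l ∈ L, l ≠ x → G.Adj l x) (h2 : ∀ l ∈ L, l ≠ x' → G.Adj l x') :
    G.IsClique (insert x (insert x' (L : Set V))) := by
  rw [SimpleGraph.isClique_insert, SimpleGraph.isClique_insert]
  refine ⟨⟨hL, ?_⟩, ?_⟩
  · intro l hl hne
    exact (h2 l hl hne.symm).symm
  · intro l hl hne
    rcases hl with hl | hl
    · rw [hl]
      exact xx
    · exact (h1 l hl hne.symm).symm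

private theorem ce_edge (h : S6 G X) : ∃ x ∈ X, ∃ y ∈ X, G.Adj x y := by
  obtain ⟨x, hx, y, hy, hxy, _⟩ := h.good.nb (fun _ => true)
  exact ⟨x, hx, y, hy, hxy⟩

private theorem ce_nbr (h : S6 G X) {x : V} (hx : x ∈ X) : ∃ y ∈ X, G.Adj x y := by
  by_contra hne
  push Not at hne
  have hZ : ({x} : Finset V) = X := by
    apply h.good.conn
    · simpa using hx
    · exact ⟨x, by simp⟩
    · intro z hz y hy hzy
      rw [Finset.mem_singleton] at hz
      subst hz
      exact absurd hzy (hne y hy)
  obtain ⟨p, hp, q, hq, hpq⟩ := ce_edge h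
  rw [← hZ, Finset.mem_singleton] at hp
  subst hp
  exact hne q hq hpq

theorem claimE (h : S6 G X) {L : Finset V} (hL : G.IsClique (L : Set V)) :
    ∃ x ∈ X, ∃ x' ∈ X, G.Adj x x' ∧ G.IsClique (insert x (insert x' (L : Set V))) := by
  have hadj : ∀ p ∈ L, ∀ q ∈ L, p ≠ q → G.Adj p q := fun p hp q hq hne => hL hp hq hne
  by_cases h2 : ∃ x ∈ L, ∃ x' ∈ L, x ∈ X ∧ x' ∈ X ∧ x ≠ x'
  · obtain ⟨x, hx, x', hx', hxX, hxX', hne⟩ := h2
    exact ⟨x, hxX, x', hxX', hadj x hx x' hx' hne, ce_two hL (hadj x hx x' hx' hne)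
      (fun l hl hlx => hadj l hl x hx hlx) (fun l hl hlx => hadj l hl x' hx' hlx)⟩
  · push Not at h2
    by_cases hv : ∃ v ∈ L, v ∉ X
    · obtain ⟨v, hvL, hvX⟩ := hv
      obtain ⟨a, ha, b, hb, ab, va, vb⟩ := s6_c h hvX
      have hQ : ∀ q ∈ L.filter (fun q => q ∉ X), q ∉ X := fun q hq => (Finset.mem_filter.1 hq).2
      have hcl : G.IsClique (insert v ((L.filter (fun q => q ∉ X) : Finset V) : Set V)) := by
        apply hL.subset
        intro p hp
        rcases hp with hp | hp
        · rw [hp]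
          exact hvL
        · exact (Finset.mem_filter.1 hp).1
      obtain ⟨s, hs, vs, sb, hsQ⟩ := claimC h hvX ha hb ab va vb _ hQ hcl
      obtain ⟨t, ht, vt, ta, htQ⟩ := claimC h hvX hb ha ab.symm vb va _ hQ hcl
      by_cases hx : ∃ x ∈ L, x ∈ X
      · obtain ⟨x, hxL, hxX⟩ := hx
        have hvx : v ≠ x := by
          rintro rfl
          exact hvX hxX
        have vx : G.Adj v x := hadj v hvL x hxL hvx
        have huniq : ∀ l ∈ L, l ∈ X → l = x := fun l hl hlX => h2 l hl x hxL hlX hxX
        rcases claimA h hvX ha hb ab va vb hxX vx with hxa | hxb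
        · have hsx : G.Adj s x := st_e1 h.gem h.good ha hb ab va vb hs hxX vs vx sb hxa
          refine ⟨x, hxX, s, hs, hsx.symm, ce_two hL hsx.symm
            (fun l hl hlx => hadj l hl x hxL hlx) ?_⟩
          intro l hl _
          by_cases hlX : l ∈ X
          · rw [huniq l hl hlX]
            exact hsx.symm
          · exact hsQ l (Finset.mem_filter.2 ⟨hl, hlX⟩)
        · have hxt : G.Adj x t := st_e1 h.gem h.good ha hb ab va vb hxX ht vx vt hxb ta
          refine ⟨x, hxX, t, ht, hxt, ce_two hL hxt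
            (fun l hl hlx => hadj l hl x hxL hlx) ?_⟩
          intro l hl _
          by_cases hlX : l ∈ X
          · rw [huniq l hl hlX]
            exact hxt
          · exact htQ l (Finset.mem_filter.2 ⟨hl, hlX⟩)
      · push Not at hx
        have hst : G.Adj s t := st_e1 h.gem h.good ha hb ab va vb hs ht vs vt sb ta
        exact ⟨s, hs, t, ht, hst, ce_two hL hst
          (fun l hl _ => hsQ l (Finset.mem_filter.2 ⟨hl, hx l hl⟩))
          (fun l hl _ => htQ l (Finset.mem_filter.2 ⟨hl, hx l hl⟩))⟩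
    · push Not at hv
      have huniq : ∀ x ∈ L, ∀ l ∈ L, l = x := fun x hx l hl =>
        h2 l hl x hx (hv l hl) (hv x hx)
      by_cases hLe : ∃ x, x ∈ L
      · obtain ⟨x, hx⟩ := hLe
        obtain ⟨y, hy, hxy⟩ := ce_nbr h (hv x hx)
        refine ⟨x, hv x hx, y, hy, hxy, ce_two hL hxy
          (fun l hl hlx => absurd (huniq x hx l hl) hlx) ?_⟩
        intro l hl _
        rw [huniq x hx l hl]
        exact hxy
      · push Not at hLe
        obtain ⟨x, hx, y, hy, hxy⟩ := ce_edge h
        exact ⟨x, hx, y, hy, hxy, ce_two hL hxy (fun l hl _ => absurd hl (hLe l))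
          (fun l hl _ => absurd hl (hLe l))⟩

end BullS6
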