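import Mathlib
import Pool.Agent.H3.BF.ClaimE
import Pool.Agent.H8.BullPerf1

namespace BullS6

open Finset BullPD

variable {V : Type*} [Fintype V] [DecidableEq V] {G : SimpleGraph V} {X : Finset V}

theorem step6_exists (hb : BullFree G) (hg : GemFree G) (hp : PrimeG G)
    (hX : ∃ X : Finset V, GoodX G X) : ∃ X : Finset V, S6 G X := by
  classical
  obtain ⟨X0, hX0⟩ := hX
  obtain ⟨X, hX, hmax⟩ := Finset.exists_max_image (Finset.univ.filter (fun X => GoodX G X))
    (fun X => ec G X) ⟨X0, by simp [hX0]⟩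
  refine ⟨X, hb, hg, hp, (Finset.mem_filter.1 hX).2, ?_⟩
  intro X' hX'
  exact hmax X' (by simp [hX'])

theorem perfOn_of_twoCol {A : Finset V} (c : V → Bool)
    (hc : ∀ x ∈ A, ∀ y ∈ A, G.Adj x y → c x ≠ c y) : PerfOn G A := by
  classical
  intro T hT
  by_cases h : ∃ x ∈ T, ∃ y ∈ T, G.Adj x y
  · obtain ⟨x, hx, y, hy, hxy⟩ := h
    have h2 := pair_le_omW (G := G) (f := fun _ => 1) hx hy hxy
    refine ⟨fun z => if c z then 1 else 0, ?_, ?_⟩
    · intro z _
      by_cases hz : c z = true <;> simp [hz] <;> omega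
    · intro z hz z' hz' hzz
      have := hc z (hT hz) z' (hT hz') hzz
      cases h1 : c z <;> cases h2 : c z' <;> simp_all
  · push Not at h
    refine ⟨fun _ => 0, ?_, ?_⟩
    · intro z hz
      have := single_le_omW (G := G) (f := fun _ => 1) hz
      exact this
    · intro z hz z' hz' hzz
      exact absurd hzz (h z hz z' hz')

theorem step6 (hb : BullFree G) (hg : GemFree G) (hp : PrimeG G)
    (hX : ∃ X : Finset V, GoodX G X)
    (h3 : ∀ X : Finset V,
      (∀ x ∈ X, ∀ y ∈ X, ∀ z ∈ X, G.Adj x y → G.Adj y z → G.Adj x z → False) →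
      ∃ c : V → Fin 3, ∀ x ∈ X, ∀ y ∈ X, G.Adj x y → c x ≠ c y)
    (f : V → ℕ) (hf : ∀ x, 0 < f x) :
    ∃ A : Finset V, PerfOn G A ∧ omW G f (Finset.univ \ A) < omW G f Finset.univ := by
  classical
  obtain ⟨X, h⟩ := step6_exists hb hg hp hX
  obtain ⟨c, hc⟩ := h3 X h.good.tri
  refine ⟨X.filter (fun x => c x ≠ 2), ?_, ?_⟩
  · apply perfOn_of_twoCol (fun x => decide (c x = 0))
    intro x hx y hy hxy heq
    rw [Finset.mem_filter] at hx hy
    have h1 := hc x hx.1 y hy.1 hxy
    have h2 := hx.2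
    have h4 := hy.2
    generalize c x = cx at *
    generalize c y = cy at *
    fin_cases cx <;> fin_cases cy <;> simp_all
  · obtain ⟨L, hL, hLc, hLs⟩ := exists_omW G f (Finset.univ \ X.filter (fun x => c x ≠ 2))
    have key : ∀ x ∈ X, c x ≠ 2 → G.IsClique (insert x (L : Set V)) →
        omW G f (Finset.univ \ X.filter (fun x => c x ≠ 2)) < omW G f Finset.univ := by
      intro x hx hcx hcl
      have hxL : x ∉ L := by
        intro hh
        exact (Finset.mem_sdiff.1 (hL hh)).2 (Finset.mem_filter.2 ⟨hx, hcx⟩)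
      have h1 : ∑ z ∈ insert x L, f z ≤ omW G f Finset.univ :=
        le_omW (Finset.subset_univ _) (by rw [Finset.coe_insert]; exact hcl)
      rw [Finset.sum_insert hxL, hLs] at h1
      have := hf x
      omega
    obtain ⟨x, hx, x', hx', hxx, hcl⟩ := claimE h hLc
    by_cases h1 : c x = 2
    · apply key x' hx' (fun h2 => hc x hx x' hx' hxx (h1.trans h2.symm))
      exact hcl.subset (Set.subset_insert _ _)
    · apply key x hx h1
      exact hcl.subset (Set.insert_subset_insert (Set.subset_insert _ _))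

end BullS6
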