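import Mathlib
import Pool.Agent.H3.BF.Step6
import Pool.Agent.H8.BullDefs
import Pool.Agent.H78.BF.Reduce

/-!
Step 6 in the common form.
-/

namespace BullPD

open Finset

theorem step6_dv {V : Type*} [Fintype V] [DecidableEq V] {G : SimpleGraph V} (hb : BullFree G)
    (hg : GemFree G) (hp : PrimeG G) (h3 : ThreeCol G) {w : V → ℕ} (hw : ∀ v, 0 < w v)
    (hX : ∃ X : Finset V, ConnOn G X ∧ TriFreeOn G X ∧ ¬ BipOn G X) : Dv G w univ := by
  classical
  have hb' : BullS6.BullFree G := by
    intro u x y t v h1 h2 h3 h4 h5 h6 h7 h8 h9 h10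
    exact h10 (hb x y t u v h1 h3 h2 h4 h5 h6 h7 h8 h9)
  have hg' : BullS6.GemFree G := by
    intro c p q r s h1 h2 h3 h4 h5 h6 h7 h8 h9 h10
    exact hg c p q r s ⟨h5, h6, h7, h8, h10, h9⟩ h1 h2 h3 h4
  have hp' : BullS6.PrimeG G := by
    intro M hM hmod
    have h1 : (M : Set V) = Set.univ := by
      apply hp
      · obtain ⟨a, ha, b, hb, hab⟩ := Finset.one_lt_card.1 (by omega : 1 < M.card)
        exact ⟨a, ha, b, hb, hab⟩
      · intro v hv
        rcases hmod v (fun h => hv (Finset.mem_coe.2 h)) with h | h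
        · exact Or.inl (fun x hx => h x (Finset.mem_coe.1 hx))
        · exact Or.inr (fun x hx => h x (Finset.mem_coe.1 hx))
    exact Finset.coe_eq_univ.1 h1
  obtain ⟨X, hc, ht, hn⟩ := hX
  have hX' : BullS6.GoodX G X := by
    refine ⟨?_, ?_, ?_⟩
    · intro Z hZ hne hcl
      have h1 : (Z : Set V) = (X : Set V) := by
        apply hc
        · exact_mod_cast hZ
        · exact_mod_cast hne
        · intro x hx y hy hxy
          exact Finset.mem_coe.2 (hcl x (Finset.mem_coe.1 hx) y (Finset.mem_coe.1 hy) hxy)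
      exact_mod_cast h1
    · intro x hx y hy z hz
      exact ht x (Finset.mem_coe.2 hx) y (Finset.mem_coe.2 hy) z (Finset.mem_coe.2 hz)
    · intro c
      by_contra hcon
      push Not at hcon
      apply hn
      refine ⟨fun x => c x = true, ?_⟩
      intro x hx y hy hxy hiff
      apply hcon x (Finset.mem_coe.1 hx) y (Finset.mem_coe.1 hy) hxy
      cases h1 : c x <;> cases h2 : c y <;> simp_all
  obtain ⟨A, hA, hlt⟩ := BullS6.step6 hb' hg' hp' ⟨X, hX'⟩ h3 w hw
  exact ⟨A, Finset.subset_univ _, hA.wperf, hlt⟩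

end BullPD
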