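import Mathlib
import Pool.Agent.H8.BullPerf1

/-!
Perfectness of the three replacements used in step 4h: false twin, true twin, and the replacement of
the nonadjacent pair `p1, p3` by `p1, p2, p4`.
-/

namespace BullPD

open Finset

variable {V : Type*} [DecidableEq V] {G : SimpleGraph V}

private theorem Twin_clique_insert {K : Finset V} {q : V} (hK : G.IsClique (K : Set V))
    (h : ∀ v ∈ K, G.Adj v q) : G.IsClique ((insert q K : Finset V) : Set V) := by
  rw [Finset.coe_insert, SimpleGraph.isClique_insert]
  exact ⟨hK, fun b hb _ => (h b hb).symm⟩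

private theorem Twin_sum_update (g f : V → ℕ) {K : Finset V} {p : V} (hp : p ∈ K)
    (h : ∀ v ∈ K, v ≠ p → g v = f v) : ∑ v ∈ K, g v = g p + ∑ v ∈ K.erase p, f v := by
  rw [← Finset.add_sum_erase _ _ hp]
  congr 1
  exact Finset.sum_congr rfl (fun v hv => h v (Finset.mem_of_mem_erase hv)
    (Finset.ne_of_mem_erase hv))

theorem wperf_false_twin {A : Finset V} {p q : V} (hA : WPerf G A) (hp : p ∈ A)
    (hpq : ¬ G.Adj p q) (h : ∀ v ∈ A, (G.Adj v q ↔ G.Adj v p)) : WPerf G (insert q A) := by
  by_cases hqA : q ∈ A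
  · rwa [Finset.insert_eq_of_mem hqA]
  have hpq' : p ≠ q := fun e => hqA (e ▸ hp)
  intro f
  set g : V → ℕ := fun v => if v = p then max (f p) (f q) else f v with hg
  have gp : g p = max (f p) (f q) := by simp [hg]
  have gn : ∀ v, v ≠ p → g v = f v := fun v hv => by simp [hg, hv]
  have hom : omW G g A ≤ omW G f (insert q A) := by
    rw [omW_le_iff]
    intro K hK hc
    by_cases hpK : p ∈ K
    · rw [Twin_sum_update g f hpK (fun v _ hv => gn v hv), gp]
      rcases le_total (f q) (f p) with h1 | h1
      · rw [max_eq_left h1, Finset.add_sum_erase _ _ hpK]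
        exact le_omW (hK.trans (Finset.subset_insert _ _)) hc
      · rw [max_eq_right h1]
        have hqK : q ∉ K.erase p := fun hh => hqA (hK (Finset.mem_of_mem_erase hh))
        rw [← Finset.sum_insert hqK]
        apply le_omW
        · intro v hv
          rcases Finset.mem_insert.1 hv with rfl | hv
          · exact Finset.mem_insert_self _ _
          · exact Finset.mem_insert_of_mem (hK (Finset.mem_of_mem_erase hv))
        · apply Twin_clique_insert (hc.subset (by simp))
          intro v hv
          have hvK := Finset.mem_of_mem_erase hv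
          exact (h v (hK hvK)).2 (hc hvK hpK (Finset.ne_of_mem_erase hv))
    · have : ∑ v ∈ K, g v = ∑ v ∈ K, f v :=
        Finset.sum_congr rfl (fun v hv => gn v (fun e => hpK (e ▸ hv)))
      rw [this]
      exact le_omW (hK.trans (Finset.subset_insert _ _)) hc
  obtain ⟨c, hc⟩ := hA.exists_col_range g hom
  have hcp := hc.1 p hp
  rw [gp] at hcp
  obtain ⟨cp, hcp1, hcp2⟩ := Finset.exists_subset_card_eq
    (show f p ≤ (c p).card by rw [hcp.1]; exact le_max_left _ _)
  obtain ⟨cq, hcq1, hcq2⟩ := Finset.exists_subset_card_eq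
    (show f q ≤ (c p).card by rw [hcp.1]; exact le_max_right _ _)
  let c' : V → Finset ℕ := fun v => if v = q then cq else if v = p then cp else c v
  have c'q : c' q = cq := by simp [c']
  have c'p : c' p = cp := by simp [c', hpq']
  have c'n : ∀ v, v ≠ q → v ≠ p → c' v = c v := fun v h1 h2 => by simp [c', h1, h2]
  -- every colour set of `c'` lies in that of the corresponding vertex of `A`
  have hsub : ∀ v ∈ A, c' v ⊆ c v := by
    intro v hv
    by_cases h1 : v = p
    · subst h1; rw [c'p]; exact hcp1
    · rw [c'n v (fun e => hqA (e ▸ hv)) h1]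
  refine ⟨c', ?_, ?_⟩
  · intro x hx
    by_cases h1 : x = q
    · subst h1
      rw [c'q]
      exact ⟨hcq2, hcq1.trans hcp.2⟩
    · have hxA : x ∈ A := (Finset.mem_insert.1 hx).resolve_left h1
      by_cases h2 : x = p
      · subst h2
        rw [c'p]
        exact ⟨hcp2, hcp1.trans hcp.2⟩
      · rw [c'n x h1 h2]
        have := hc.1 x hxA
        rw [gn x h2] at this
        exact this
  · have key : ∀ y ∈ A, G.Adj q y → Disjoint (c' q) (c' y) := by
      intro y hy hqy
      have hpy : G.Adj p y := ((h y hy).1 hqy.symm).symm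
      rw [c'q]
      exact (hc.2 p hp y hy hpy).mono hcq1 (hsub y hy)
    intro x hx y hy hxy
    rcases Finset.mem_insert.1 hx with h1 | hx'
    · rcases Finset.mem_insert.1 hy with h2 | hy'
      · exact absurd (h1.trans h2.symm) hxy.ne
      · subst h1; exact key y hy' hxy
    · rcases Finset.mem_insert.1 hy with h2 | hy'
      · subst h2; exact (key x hx' hxy.symm).symm
      · exact (hc.2 x hx' y hy' hxy).mono (hsub x hx') (hsub y hy')

theorem wperf_true_twin {A : Finset V} {p q : V} (hA : WPerf G A) (hp : p ∈ A)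
    (hpq : G.Adj p q) (h : ∀ v ∈ A, v ≠ p → (G.Adj v q ↔ G.Adj v p)) : WPerf G (insert q A) := by
  by_cases hqA : q ∈ A
  · rwa [Finset.insert_eq_of_mem hqA]
  have hpq' : p ≠ q := hpq.ne
  intro f
  set g : V → ℕ := fun v => if v = p then f p + f q else f v with hg
  have gp : g p = f p + f q := by simp [hg]
  have gn : ∀ v, v ≠ p → g v = f v := fun v hv => by simp [hg, hv]
  have hom : omW G g A ≤ omW G f (insert q A) := by
    rw [omW_le_iff]
    intro K hK hc
    by_cases hpK : p ∈ K
    · rw [Twin_sum_update g f hpK (fun v _ hv => gn v hv), gp]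
      have hqK : q ∉ K := fun hh => hqA (hK hh)
      have h2 : f p + f q + ∑ v ∈ K.erase p, f v = ∑ v ∈ insert q K, f v := by
        rw [Finset.sum_insert hqK, ← Finset.add_sum_erase _ _ hpK]; ring
      rw [h2]
      apply le_omW (Finset.insert_subset_insert _ hK)
      apply Twin_clique_insert hc
      intro v hv
      by_cases hvp : v = p
      · subst hvp; exact hpq
      · exact (h v (hK hv) hvp).2 (hc hv hpK hvp)
    · have : ∑ v ∈ K, g v = ∑ v ∈ K, f v :=
        Finset.sum_congr rfl (fun v hv => gn v (fun e => hpK (e ▸ hv)))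
      rw [this]
      exact le_omW (hK.trans (Finset.subset_insert _ _)) hc
  obtain ⟨c, hc⟩ := hA.exists_col_range g hom
  have hcp := hc.1 p hp
  rw [gp] at hcp
  obtain ⟨cp, hcp1, hcp2⟩ := Finset.exists_subset_card_eq
    (show f p ≤ (c p).card by rw [hcp.1]; exact Nat.le_add_right _ _)
  have hcq2 : (c p \ cp).card = f q := by
    rw [Finset.card_sdiff_of_subset hcp1, hcp.1, hcp2]; omega
  let c' : V → Finset ℕ := fun v => if v = q then c p \ cp else if v = p then cp else c v
  have c'q : c' q = c p \ cp := by simp [c']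
  have c'p : c' p = cp := by simp [c', hpq']
  have c'n : ∀ v, v ≠ q → v ≠ p → c' v = c v := fun v h1 h2 => by simp [c', h1, h2]
  have hsub : ∀ v ∈ A, c' v ⊆ c v := by
    intro v hv
    by_cases h1 : v = p
    · subst h1; rw [c'p]; exact hcp1
    · rw [c'n v (fun e => hqA (e ▸ hv)) h1]
  refine ⟨c', ?_, ?_⟩
  · intro x hx
    by_cases h1 : x = q
    · subst h1
      rw [c'q]
      exact ⟨hcq2, Finset.sdiff_subset.trans hcp.2⟩
    · have hxA : x ∈ A := (Finset.mem_insert.1 hx).resolve_left h1
      by_cases h2 : x = p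
      · subst h2
        rw [c'p]
        exact ⟨hcp2, hcp1.trans hcp.2⟩
      · rw [c'n x h1 h2]
        have := hc.1 x hxA
        rw [gn x h2] at this
        exact this
  · have key : ∀ y ∈ A, G.Adj q y → Disjoint (c' q) (c' y) := by
      intro y hy hqy
      rw [c'q]
      by_cases hyp : y = p
      · subst hyp
        rw [c'p]
        exact Finset.sdiff_disjoint
      · have hpy : G.Adj p y := ((h y hy hyp).1 hqy.symm).symm
        exact (hc.2 p hp y hy hpy).mono Finset.sdiff_subset (hsub y hy)
    intro x hx y hy hxy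
    rcases Finset.mem_insert.1 hx with h1 | hx'
    · rcases Finset.mem_insert.1 hy with h2 | hy'
      · exact absurd (h1.trans h2.symm) hxy.ne
      · subst h1; exact key y hy' hxy
    · rcases Finset.mem_insert.1 hy with h2 | hy'
      · subst h2; exact (key x hx' hxy.symm).symm
      · exact (hc.2 x hx' y hy' hxy).mono (hsub x hx') (hsub y hy')

theorem twin_perf {K : Finset V} {p1 p2 p3 p4 : V} (h12 : G.Adj p1 p2)
    (h13 : ¬ G.Adj p1 p3) (h14 : ¬ G.Adj p1 p4) (h24 : ¬ G.Adj p2 p4) (hne : p1 ≠ p3)
    (k1 : p1 ∉ K) (k2 : p2 ∉ K) (k3 : p3 ∉ K) (k4 : p4 ∉ K)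
    (ha : ∀ v ∈ K, G.Adj v p2 ↔ G.Adj v p3) (hb : ∀ v ∈ K, G.Adj v p4 ↔ G.Adj v p1)
    (hc : ∀ v ∈ K, G.Adj v p3 → G.Adj v p1) (hA : WPerf G (insert p1 (insert p3 K))) :
    WPerf G (insert p1 (insert p2 (insert p4 K))) := by
  have n12 : p1 ≠ p2 := h12.ne
  have n24 : p2 ≠ p4 := by
    rintro rfl
    exact h14 h12
  intro f
  by_cases n14 : p1 = p4
  · exact absurd (n14 ▸ h12.symm) h24
  set B : Finset V := insert p1 (insert p2 (insert p4 K)) with hB
  have b1 : p1 ∈ B := Finset.mem_insert_self _ _
  have b2 : p2 ∈ B := Finset.mem_insert_of_mem (Finset.mem_insert_self _ _)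
  have b4 : p4 ∈ B :=
    Finset.mem_insert_of_mem (Finset.mem_insert_of_mem (Finset.mem_insert_self _ _))
  have bK : K ⊆ B := fun v hv =>
    Finset.mem_insert_of_mem (Finset.mem_insert_of_mem (Finset.mem_insert_of_mem hv))
  set g : V → ℕ := fun v => if v = p1 then max (f p1) (f p4) else
    if v = p3 then f p1 + f p2 else f v with hg
  have g1 : g p1 = max (f p1) (f p4) := by simp [hg]
  have g3 : g p3 = f p1 + f p2 := by simp [hg, hne.symm]
  have gK : ∀ v ∈ K, g v = f v := by
    intro v hv
    have e1 : v ≠ p1 := fun e => k1 (e ▸ hv)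
    have e3 : v ≠ p3 := fun e => k3 (e ▸ hv)
    simp [hg, e1, e3]
  have hom : omW G g (insert p1 (insert p3 K)) ≤ omW G f B := by
    rw [omW_le_iff]
    intro C hC hcl
    by_cases c3 : p3 ∈ C
    · -- `C = {p3} ∪ C'`
      have c1 : p1 ∉ C := fun c1 => h13 (hcl c1 c3 hne)
      have hsub : C.erase p3 ⊆ K := by
        intro v hv
        have h1 := hC (Finset.mem_of_mem_erase hv)
        rcases Finset.mem_insert.1 h1 with rfl | h1
        · exact absurd (Finset.mem_of_mem_erase hv) c1
        · exact (Finset.mem_insert.1 h1).resolve_left (Finset.ne_of_mem_erase hv)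
      have hs : ∑ v ∈ C, g v = f p1 + f p2 + ∑ v ∈ C.erase p3, f v := by
        rw [← Finset.add_sum_erase _ _ c3, g3]
        congr 1
        exact Finset.sum_congr rfl (fun v hv => gK v (hsub hv))
      have m2 : p2 ∉ C.erase p3 := fun hh => k2 (hsub hh)
      have m1 : p1 ∉ insert p2 (C.erase p3) := by
        intro hh
        rcases Finset.mem_insert.1 hh with hh | hh
        · exact n12 hh
        · exact k1 (hsub hh)
      have hs2 : ∑ v ∈ C, g v = ∑ v ∈ insert p1 (insert p2 (C.erase p3)), f v := by
        rw [Finset.sum_insert m1, Finset.sum_insert m2, hs]; ring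
      rw [hs2]
      apply le_omW
      · intro v hv
        rcases Finset.mem_insert.1 hv with rfl | hv
        · exact b1
        · rcases Finset.mem_insert.1 hv with rfl | hv
          · exact b2
          · exact bK (hsub hv)
      · have hadj : ∀ v ∈ C.erase p3, G.Adj v p3 := fun v hv =>
          hcl (Finset.mem_of_mem_erase hv) c3 (Finset.ne_of_mem_erase hv)
        apply Twin_clique_insert
        · apply Twin_clique_insert (hcl.subset (by simp))
          intro v hv
          exact (ha v (hsub hv)).2 (hadj v hv)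
        · intro v hv
          rcases Finset.mem_insert.1 hv with rfl | hv
          · exact h12.symm
          · exact hc v (hsub hv) (hadj v hv)
    · by_cases c1 : p1 ∈ C
      · have hsub : C.erase p1 ⊆ K := by
          intro v hv
          have h1 := hC (Finset.mem_of_mem_erase hv)
          rcases Finset.mem_insert.1 h1 with rfl | h1
          · exact absurd rfl (Finset.ne_of_mem_erase hv)
          · rcases Finset.mem_insert.1 h1 with rfl | h1
            · exact absurd (Finset.mem_of_mem_erase hv) c3
            · exact h1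
        have hs : ∑ v ∈ C, g v = max (f p1) (f p4) + ∑ v ∈ C.erase p1, f v := by
          rw [← Finset.add_sum_erase _ _ c1, g1]
          congr 1
          exact Finset.sum_congr rfl (fun v hv => gK v (hsub hv))
        have hadj : ∀ v ∈ C.erase p1, G.Adj v p1 := fun v hv =>
          hcl (Finset.mem_of_mem_erase hv) c1 (Finset.ne_of_mem_erase hv)
        rw [hs]
        rcases le_total (f p4) (f p1) with h1 | h1
        · rw [max_eq_left h1, ← Finset.sum_insert (fun hh => k1 (hsub hh))]
          apply le_omW
          · intro v hv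
            rcases Finset.mem_insert.1 hv with rfl | hv
            · exact b1
            · exact bK (hsub hv)
          · exact Twin_clique_insert (hcl.subset (by simp)) hadj
        · rw [max_eq_right h1, ← Finset.sum_insert (fun hh => k4 (hsub hh))]
          apply le_omW
          · intro v hv
            rcases Finset.mem_insert.1 hv with rfl | hv
            · exact b4
            · exact bK (hsub hv)
          · exact Twin_clique_insert (hcl.subset (by simp))
              (fun v hv => (hb v (hsub hv)).2 (hadj v hv))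
      · have hsub : C ⊆ K := by
          intro v hv
          have h1 := hC hv
          rcases Finset.mem_insert.1 h1 with rfl | h1
          · exact absurd hv c1
          · rcases Finset.mem_insert.1 h1 with rfl | h1
            · exact absurd hv c3
            · exact h1
        have hs : ∑ v ∈ C, g v = ∑ v ∈ C, f v :=
          Finset.sum_congr rfl (fun v hv => gK v (hsub hv))
        rw [hs]
        exact le_omW (hsub.trans bK) hcl
  obtain ⟨c, hcol⟩ := hA.exists_col_range g hom
  have d1 := hcol.1 p1 (Finset.mem_insert_self _ _)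
  have d3 := hcol.1 p3 (Finset.mem_insert_of_mem (Finset.mem_insert_self _ _))
  have dK : ∀ v ∈ K, v ∈ insert p1 (insert p3 K) := fun v hv =>
    Finset.mem_insert_of_mem (Finset.mem_insert_of_mem hv)
  rw [g1] at d1
  rw [g3] at d3
  obtain ⟨e1, he1, he1c⟩ := Finset.exists_subset_card_eq
    (show f p1 ≤ (c p1).card by rw [d1.1]; exact le_max_left _ _)
  obtain ⟨e4, he4, he4c⟩ := Finset.exists_subset_card_eq
    (show f p4 ≤ (c p1).card by rw [d1.1]; exact le_max_right _ _)
  obtain ⟨e2, he2, he2c⟩ := Finset.exists_subset_card_eq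
    (show f p2 ≤ (c p3 \ e1).card by
      have := Finset.le_card_sdiff e1 (c p3)
      omega)
  let c' : V → Finset ℕ := fun v => if v = p1 then e1 else if v = p2 then e2 else
    if v = p4 then e4 else c v
  have c'1 : c' p1 = e1 := by simp [c']
  have c'2 : c' p2 = e2 := by simp [c', n12.symm]
  have c'4 : c' p4 = e4 := by simp [c', n24.symm, Ne.symm n14]
  have c'K : ∀ v ∈ K, c' v = c v := by
    intro v hv
    have z1 : v ≠ p1 := fun e => k1 (e ▸ hv)
    have z2 : v ≠ p2 := fun e => k2 (e ▸ hv)
    have z4 : v ≠ p4 := fun e => k4 (e ▸ hv)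
    simp [c', z1, z2, z4]
  have e2c3 : e2 ⊆ c p3 := he2.trans Finset.sdiff_subset
  have e2e1 : Disjoint e1 e2 :=
    (Finset.disjoint_of_subset_left he2 Finset.sdiff_disjoint).symm
  have hp3 : p3 ∈ insert p1 (insert p3 K) :=
    Finset.mem_insert_of_mem (Finset.mem_insert_self _ _)
  have hp1 : p1 ∈ insert p1 (insert p3 K) := Finset.mem_insert_self _ _
  have kk1 : ∀ v ∈ K, G.Adj p1 v → Disjoint e1 (c v) := fun v hv hadj =>
    (hcol.2 p1 hp1 v (dK v hv) hadj).mono_left he1
  have kk4 : ∀ v ∈ K, G.Adj p4 v → Disjoint e4 (c v) := fun v hv hadj =>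
    (hcol.2 p1 hp1 v (dK v hv) ((hb v hv).1 hadj.symm).symm).mono_left he4
  have kk2 : ∀ v ∈ K, G.Adj p2 v → Disjoint e2 (c v) := fun v hv hadj =>
    (hcol.2 p3 hp3 v (dK v hv) ((ha v hv).1 hadj.symm).symm).mono_left e2c3
  refine ⟨c', ?_, ?_⟩
  · intro x hx
    rcases Finset.mem_insert.1 hx with rfl | hx
    · rw [c'1]; exact ⟨he1c, he1.trans d1.2⟩
    rcases Finset.mem_insert.1 hx with rfl | hx
    · rw [c'2]; exact ⟨he2c, e2c3.trans d3.2⟩
    rcases Finset.mem_insert.1 hx with rfl | hx
    · rw [c'4]; exact ⟨he4c, he4.trans d1.2⟩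
    · rw [c'K x hx]
      have := hcol.1 x (dK x hx)
      rwa [gK x hx] at this
  · -- symmetric relation on ordered pairs
    have main : ∀ x ∈ B, ∀ y ∈ B, G.Adj x y → (x = p1 ∨ (x = p2 ∧ y ≠ p1) ∨
        (x = p4 ∧ y ≠ p1 ∧ y ≠ p2) ∨ (x ∈ K ∧ y ∈ K)) → Disjoint (c' x) (c' y) := by
      intro x hx y hy hxy hcase
      rcases hcase with rfl | ⟨rfl, hy1⟩ | ⟨rfl, hy1, hy2⟩ | ⟨hxK, hyK⟩
      · rw [c'1]
        rcases Finset.mem_insert.1 hy with rfl | hy
        · exact absurd rfl hxy.ne
        rcases Finset.mem_insert.1 hy with rfl | hy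
        · rw [c'2]; exact e2e1
        rcases Finset.mem_insert.1 hy with rfl | hy
        · exact absurd hxy h14
        · rw [c'K y hy]; exact kk1 y hy hxy
      · rw [c'2]
        rcases Finset.mem_insert.1 hy with h1 | hy
        · exact absurd h1 hy1
        rcases Finset.mem_insert.1 hy with rfl | hy
        · exact absurd rfl hxy.ne
        rcases Finset.mem_insert.1 hy with rfl | hy
        · exact absurd hxy h24
        · rw [c'K y hy]; exact kk2 y hy hxy
      · rw [c'4]
        rcases Finset.mem_insert.1 hy with h1 | hy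
        · exact absurd h1 hy1
        rcases Finset.mem_insert.1 hy with h1 | hy
        · exact absurd h1 hy2
        rcases Finset.mem_insert.1 hy with rfl | hy
        · exact absurd rfl hxy.ne
        · rw [c'K y hy]; exact kk4 y hy hxy
      · rw [c'K x hxK, c'K y hyK]
        exact hcol.2 x (dK x hxK) y (dK y hyK) hxy
    intro x hx y hy hxy
    have memK : ∀ v ∈ B, v ≠ p1 → v ≠ p2 → v ≠ p4 → v ∈ K := by
      intro v hv e1 e2 e4
      rcases Finset.mem_insert.1 hv with h | hv
      · exact absurd h e1
      rcases Finset.mem_insert.1 hv with h | hv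
      · exact absurd h e2
      rcases Finset.mem_insert.1 hv with h | hv
      · exact absurd h e4
      · exact hv
    by_cases x1 : x = p1
    · exact main x hx y hy hxy (Or.inl x1)
    by_cases y1 : y = p1
    · exact (main y hy x hx hxy.symm (Or.inl y1)).symm
    by_cases x2 : x = p2
    · exact main x hx y hy hxy (Or.inr (Or.inl ⟨x2, y1⟩))
    by_cases y2 : y = p2
    · exact (main y hy x hx hxy.symm (Or.inr (Or.inl ⟨y2, x1⟩))).symm
    by_cases x4 : x = p4
    · exact main x hx y hy hxy (Or.inr (Or.inr (Or.inl ⟨x4, y1, y2⟩)))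
    by_cases y4 : y = p4
    · exact (main y hy x hx hxy.symm (Or.inr (Or.inr (Or.inl ⟨y4, x1, x2⟩)))).symm
    exact main x hx y hy hxy
      (Or.inr (Or.inr (Or.inr ⟨memK x hx x1 x2 x4, memK y hy y1 y2 y4⟩)))

end BullPD
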